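import Pool.Agent.Lib.MP_76c039_co.Core

set_option autoImplicit false

/-!
Infinite periodic groups with finite centralizers have no involutions, and the resulting structure
of groups for which large monochromatic symmetric sets do not exist.
-/

namespace Pool.Agent.Lib.MP_76c039_co

open Set

section lemma1

variable {G : Type*} [Group G]

/-- Conjugates of `i` in a finite set come from finitely many elements. -/
theorem finite_conj_mem (i : G) (hC : {g : G | g * i = i * g}.Finite) (K : Set G)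
    (hK : K.Finite) : {g : G | g⁻¹ * i * g ∈ K}.Finite := by
  refine hK.preimage' (f := fun g : G => g⁻¹ * i * g) ?_
  intro b hb
  by_cases hne : ∃ g₀ : G, g₀⁻¹ * i * g₀ = b
  · obtain ⟨g₀, rfl⟩ := hne
    refine (hC.image (fun c => c * g₀)).subset ?_
    intro g hg
    have hg' : g⁻¹ * i * g = g₀⁻¹ * i * g₀ := hg
    refine ⟨g * g₀⁻¹, ?_, by group⟩
    change g * g₀⁻¹ * i = i * (g * g₀⁻¹)
    calc g * g₀⁻¹ * i = g * (g₀⁻¹ * i * g₀) * g₀⁻¹ := by group
      _ = g * (g⁻¹ * i * g) * g₀⁻¹ := by rw [hg']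
      _ = i * (g * g₀⁻¹) := by group
  · convert Set.finite_empty
    ext g
    simp only [Set.mem_preimage, Set.mem_singleton_iff, Set.mem_empty_iff_false, iff_false]
    exact fun h => hne ⟨g, h⟩

/-- An infinite periodic group in which all nontrivial elements have finite centralizers has no
involution. -/
theorem no_involution [Infinite G] (hper : ∀ g : G, IsOfFinOrder g)
    (hcent : ∀ g : G, g ≠ 1 → {x : G | x * g = g * x}.Finite) (i : G) (hi : i * i = 1) :
    i = 1 := by
  classical
  by_contra hne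
  have hinv : i⁻¹ = i := inv_eq_of_mul_eq_one_left hi
  set C : Set G := {g : G | g * i = i * g} with hCdef
  have hC : C.Finite := hcent i hne
  -- the product with conjugates
  have hconj : ∀ g : G, (g⁻¹ * i * g) * (g⁻¹ * i * g) = 1 := by
    intro g
    calc (g⁻¹ * i * g) * (g⁻¹ * i * g) = g⁻¹ * (i * i) * g := by group
      _ = 1 := by rw [hi]; group
  set E : Set G := {g : G | Even (orderOf (i * (g⁻¹ * i * g)))} with hEdef
  have hE : E.Finite := by
    have hsub : E ⊆ ⋃ z ∈ C \ {1}, {g : G | g⁻¹ * i * g ∈ {x : G | x * z = z * x}} := by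
      intro g hg
      set j := g⁻¹ * i * g with hj
      have hjj : j * j = 1 := hconj g
      have hjinv : j⁻¹ = j := inv_eq_of_mul_eq_one_left hjj
      set w := i * j with hw
      have hwi : i * w * i⁻¹ = w⁻¹ := by
        rw [hw, mul_inv_rev, hinv, hjinv]
        calc i * (i * j) * i = (i * i) * j * i := by group
          _ = j * i := by rw [hi]; group
      have hwinv : w⁻¹ = j * i := by
        rw [hw]
        calc (i * j)⁻¹ = j⁻¹ * i⁻¹ := mul_inv_rev i j
          _ = j * i := by rw [hjinv, hinv]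
      have hwj : j * w * j⁻¹ = w⁻¹ := by
        rw [hwinv]
        calc j * w * j⁻¹ = j * (i * j) * j⁻¹ := by rw [hw]
          _ = j * i := by group
      obtain ⟨m, hm⟩ : Even (orderOf w) := hg
      have hpos : 0 < orderOf w := (hper w).orderOf_pos
      have hmpos : 0 < m := by omega
      set z := w ^ m with hz
      have hzz : z * z = 1 := by
        rw [hz, ← pow_add, ← hm, pow_orderOf_eq_one]
      have hzinv : z⁻¹ = z := inv_eq_of_mul_eq_one_left hzz
      have hz1 : z ≠ 1 := by
        intro h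
        have h1 := orderOf_dvd_of_pow_eq_one h
        have := Nat.le_of_dvd hmpos h1
        omega
      have hzi : i * z * i⁻¹ = z := by
        rw [hz, ← conj_pow, hwi, inv_pow, ← hz, hzinv]
      have hzj : j * z * j⁻¹ = z := by
        rw [hz, ← conj_pow, hwj, inv_pow, ← hz, hzinv]
      simp only [Set.mem_iUnion, Set.mem_sdiff, Set.mem_singleton_iff]
      refine ⟨z, ⟨?_, hz1⟩, ?_⟩
      · change z * i = i * z
        calc z * i = (i * z * i⁻¹) * i := by rw [hzi]
          _ = i * z := by group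
      · change j * z = z * j
        calc j * z = (j * z * j⁻¹) * j := by group
          _ = z * j := by rw [hzj]
    refine Set.Finite.subset ?_ hsub
    refine Set.Finite.biUnion (hC.subset Set.sdiff_subset) ?_
    intro z hz
    exact finite_conj_mem i hC _ (hcent z hz.2)
  -- decomposition outside `E`
  have hdec : ∀ g : G, g ∉ E → ∃ c ∈ C, ∃ h : G, i * h * i = h⁻¹ ∧ g = c * h := by
    intro g hg
    set j := g⁻¹ * i * g with hj
    have hjj : j * j = 1 := hconj g
    have hjinv : j⁻¹ = j := inv_eq_of_mul_eq_one_left hjj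
    set w := i * j with hw
    have hodd : Odd (orderOf w) := Nat.not_even_iff_odd.1 hg
    obtain ⟨m, hm⟩ := hodd
    have hwi : i * w * i⁻¹ = w⁻¹ := by
      rw [hw, mul_inv_rev, hinv, hjinv]
      calc i * (i * j) * i = (i * i) * j * i := by group
        _ = j * i := by rw [hi]; group
    set h := w ^ (m + 1) with hh
    have hhh : h * h = w := by
      rw [hh, ← pow_add]
      have : m + 1 + (m + 1) = orderOf w + 1 := by omega
      rw [this, pow_succ, pow_orderOf_eq_one, one_mul]
    have hhi : i * h * i = h⁻¹ := by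
      have : i * h * i⁻¹ = h⁻¹ := by rw [hh, ← conj_pow, hwi, inv_pow]
      rw [hinv] at this
      exact this
    have hconjh : h⁻¹ * i * h = j := by
      have e1 : i * h = h⁻¹ * i := by
        calc i * h = i * h * (i * i) := by rw [hi, mul_one]
          _ = (i * h * i) * i := by group
          _ = h⁻¹ * i := by rw [hhi]
      calc h⁻¹ * i * h = h⁻¹ * (i * h) := by group
        _ = h⁻¹ * (h⁻¹ * i) := by rw [e1]
        _ = (h * h)⁻¹ * i := by group
        _ = (i * j)⁻¹ * i := by rw [hhh]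
        _ = j⁻¹ * i⁻¹ * i := by group
        _ = j := by rw [hjinv]; group
    refine ⟨g * h⁻¹, ?_, h, hhi, by group⟩
    change g * h⁻¹ * i = i * (g * h⁻¹)
    calc g * h⁻¹ * i = g * (h⁻¹ * i * h) * h⁻¹ := by group
      _ = g * (g⁻¹ * i * g) * h⁻¹ := by rw [hconjh]
      _ = i * (g * h⁻¹) := by group
  set I : Set G := {h : G | i * h * i = h⁻¹} with hIdef
  have hIinf : I.Infinite := by
    intro hI
    have h1 : (Set.univ : Set G) ⊆ E ∪ Set.image2 (fun c h => c * h) C I := by
      intro g _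
      by_cases hg : g ∈ E
      · exact Or.inl hg
      · obtain ⟨c, hc, h, hh, rfl⟩ := hdec g hg
        exact Or.inr ⟨c, hc, h, hh, rfl⟩
    exact Set.infinite_univ ((hE.union (hC.image2 _ hI)).subset h1)
  obtain ⟨a, haI, haC⟩ := hIinf.exists_notMem_finite hC
  have haI' : i * a * i = a⁻¹ := haI
  set B : Set G := {b : G | b ∈ I ∧ a * b ∉ E} with hBdef
  have hBinf : B.Infinite := by
    have h1 : {b : G | a * b ∈ E}.Finite := hE.preimage (mul_right_injective a).injOn
    have h2 : B = I \ {b : G | a * b ∈ E} := by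
      ext b
      simp [hBdef]
    rw [h2]
    exact hIinf.sdiff h1
  have hBc : ∀ b ∈ B, ∃ c ∈ C, c⁻¹ * a * b = b * (a * c) := by
    rintro b ⟨hbI, hbE⟩
    have hbI' : i * b * i = b⁻¹ := hbI
    obtain ⟨c, hc, h, hh, hab⟩ := hdec (a * b) hbE
    refine ⟨c, hc, ?_⟩
    have hc' : c * i = i * c := hc
    have e1 : i * (a * b) * i = a⁻¹ * b⁻¹ := by
      calc i * (a * b) * i = (i * a * i) * (i * i)⁻¹ * (i * b * i) := by group
        _ = a⁻¹ * b⁻¹ := by rw [haI', hbI', hi]; group
    have e2 : i * (c * h) * i = c * h⁻¹ := by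
      calc i * (c * h) * i = (i * c) * h * i := by group
        _ = c * (i * h * i) := by rw [← hc']; group
        _ = c * h⁻¹ := by rw [hh]
    have e3 : a⁻¹ * b⁻¹ = c * h⁻¹ := by rw [← e1, hab, e2]
    have e4 : h = b * a * c := by
      have : h⁻¹ = c⁻¹ * (a⁻¹ * b⁻¹) := by rw [e3]; group
      calc h = (h⁻¹)⁻¹ := by group
        _ = (c⁻¹ * (a⁻¹ * b⁻¹))⁻¹ := by rw [this]
        _ = b * a * c := by group
    calc c⁻¹ * a * b = c⁻¹ * (a * b) := by group
      _ = c⁻¹ * (c * h) := by rw [hab]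
      _ = h := by group
      _ = b * (a * c) := by rw [e4]; group
  choose! f hfC hf using hBc
  obtain ⟨c, hc, hinf⟩ : ∃ c ∈ C, {b | b ∈ B ∧ f b = c}.Infinite := by
    by_contra hcon
    push Not at hcon
    apply hBinf
    have h1 : B ⊆ ⋃ c ∈ C, {b | b ∈ B ∧ f b = c} := by
      intro b hb
      simp only [Set.mem_iUnion]
      exact ⟨f b, hfC b hb, hb, rfl⟩
    exact (Set.Finite.biUnion hC (fun c hc => hcon c hc)).subset h1
  obtain ⟨b₀, hb₀B, hb₀⟩ := hinf.nonempty
  have hd : c⁻¹ * a ≠ 1 := by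
    intro h
    apply haC
    have : a = c := by
      calc a = c * (c⁻¹ * a) := by group
        _ = c := by rw [h, mul_one]
    rw [this]
    exact hc
  apply (hinf.image (mul_left_injective b₀⁻¹).injOn)
  refine (hcent (c⁻¹ * a) hd).subset ?_
  rintro _ ⟨b, ⟨hbB, hb⟩, rfl⟩
  have h1 := hf b hbB
  have h2 := hf b₀ hb₀B
  rw [hb] at h1
  rw [hb₀] at h2
  change b * b₀⁻¹ * (c⁻¹ * a) = c⁻¹ * a * (b * b₀⁻¹)
  calc b * b₀⁻¹ * (c⁻¹ * a) = b * b₀⁻¹ * (c⁻¹ * a * b₀) * b₀⁻¹ := by group
    _ = b * b₀⁻¹ * (b₀ * (a * c)) * b₀⁻¹ := by rw [h2]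
    _ = (b * (a * c)) * b₀⁻¹ := by group
    _ = (c⁻¹ * a * b) * b₀⁻¹ := by rw [h1]
    _ = c⁻¹ * a * (b * b₀⁻¹) := by group

end lemma1

end Pool.Agent.Lib.MP_76c039_co
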