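import Mathlib

set_option autoImplicit false

/-!
Symmetric monochromatic subsets of groups: the common centre construction.
-/

namespace Pool.Agent.Lib.MP_76c039_co

open Finset

/-- In every finite colouring and for every finite `F` there are `x` and `z ∉ F` such that `x` and
`z * z * x` have the same colour. -/
def PairOut (G : Type*) [Group G] : Prop :=
  ∀ (k : ℕ) (c : G → Fin k) (F : Finset G), ∃ x z : G, z ∉ F ∧ c (z * z * x) = c x

section core

variable {G : Type*} [Group G]

theorem PairOut.fintype (h : PairOut G) {α : Type*} [Finite α] (c : G → α) (F : Finset G) :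
    ∃ x z : G, z ∉ F ∧ c (z * z * x) = c x := by
  obtain ⟨m, ⟨e⟩⟩ := Finite.exists_equiv_fin α
  obtain ⟨x, z, hz, hc⟩ := h m (fun g => e (c g)) F
  exact ⟨x, z, hz, e.injective hc⟩

/-- Compactness: finitely many pairs suffice for all colourings. -/
theorem PairOut.window (h : PairOut G) (α : Type*) [Finite α] (F : Finset G) :
    ∃ W : Finset (G × G), (∀ p ∈ W, p.2 ∉ F) ∧
      ∀ c : G → α, ∃ p ∈ W, c (p.2 * p.2 * p.1) = c p.1 := by
  classical
  let _ : TopologicalSpace α := ⊥
  have _ : DiscreteTopology α := ⟨rfl⟩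
  let U : {p : G × G // p.2 ∉ F} → Set (G → α) :=
    fun p => {c | c (p.1.2 * p.1.2 * p.1.1) = c p.1.1}
  have hU : ∀ p, IsOpen (U p) := by
    intro p
    have hcont : Continuous (fun c : G → α => (c (p.1.2 * p.1.2 * p.1.1), c p.1.1)) :=
      (continuous_apply _).prodMk (continuous_apply _)
    have : U p = (fun c : G → α => (c (p.1.2 * p.1.2 * p.1.1), c p.1.1)) ⁻¹'
        {q : α × α | q.1 = q.2} := rfl
    rw [this]
    exact (isOpen_discrete _).preimage hcont
  have hcov : (Set.univ : Set (G → α)) ⊆ ⋃ p, U p := by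
    intro c _
    obtain ⟨x, z, hz, hc⟩ := h.fintype c F
    exact Set.mem_iUnion.2 ⟨⟨(x, z), hz⟩, hc⟩
  obtain ⟨t, ht⟩ := isCompact_univ.elim_finite_subcover U hU hcov
  refine ⟨t.image Subtype.val, ?_, ?_⟩
  · intro p hp
    rw [Finset.mem_image] at hp
    obtain ⟨q, -, rfl⟩ := hp
    exact q.2
  · intro c
    have := ht (Set.mem_univ c)
    rw [Set.mem_iUnion₂] at this
    obtain ⟨p, hp, hc⟩ := this
    exact ⟨p.1, Finset.mem_image.2 ⟨p, hp, rfl⟩, hc⟩

/-- The common centre construction. -/
theorem PairOut.centre (h : PairOut G) (k M : ℕ) :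
    ∀ (L F : Finset G) (c : G → Fin k), ∃ (s : G) (B : Finset G), B.card = M ∧
      (∀ b ∈ B, b ∉ F) ∧ ∀ b ∈ B, ∀ l ∈ L, c (l * (b * s)) = c (l * (b⁻¹ * s)) := by
  classical
  induction M with
  | zero =>
    intro L F c
    exact ⟨1, ∅, rfl, by simp, by simp⟩
  | succ M ih =>
    intro L F c
    obtain ⟨W, hWF, hW⟩ := h.window (L → Fin k) F
    let T : Finset G := W.image (fun p => p.2 * p.1)
    let L' : Finset G := (L ×ˢ T).image (fun q => q.1 * q.2)
    let F' : Finset G := (F ×ˢ T).image (fun q => q.2⁻¹ * q.1 * q.2) ∪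
      W.image (fun p => (p.2 * p.1)⁻¹ * p.2 * (p.2 * p.1))
    obtain ⟨s, B, hcard, hBF, hB⟩ := ih L' F' c
    obtain ⟨⟨u, z⟩, hp, hpc⟩ := hW (fun v l => c (l.1 * (v * s)))
    simp only at hpc
    have hT : z * u ∈ T := Finset.mem_image.2 ⟨(u, z), hp, rfl⟩
    have hzF : z ∉ F := hWF _ hp
    let t : G := z * u
    have hinj : Function.Injective (fun b : G => t * b * t⁻¹) := by
      intro a b hab
      simpa using hab
    refine ⟨t * s, insert z (B.image (fun b => t * b * t⁻¹)), ?_, ?_, ?_⟩
    · rw [Finset.card_insert_of_notMem, Finset.card_image_of_injective _ hinj, hcard]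
      intro hz
      rw [Finset.mem_image] at hz
      obtain ⟨b, hb, hbz⟩ := hz
      apply hBF b hb
      apply Finset.mem_union_right
      refine Finset.mem_image.2 ⟨(u, z), hp, ?_⟩
      change t⁻¹ * z * t = b
      rw [← hbz]
      group
    · intro b hb
      rw [Finset.mem_insert, Finset.mem_image] at hb
      rcases hb with rfl | ⟨b', hb', rfl⟩
      · exact hzF
      · intro hF
        apply hBF b' hb'
        apply Finset.mem_union_left
        refine Finset.mem_image.2 ⟨(t * b' * t⁻¹, t), Finset.mem_product.2 ⟨hF, hT⟩, ?_⟩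
        change t⁻¹ * (t * b' * t⁻¹) * t = b'
        group
    · intro b hb l hl
      rw [Finset.mem_insert, Finset.mem_image] at hb
      rcases hb with rfl | ⟨b', hb', rfl⟩
      · have := congrFun hpc ⟨l, hl⟩
        simp only at this
        have e1 : l * (b * (t * s)) = l * (b * b * u * s) := by
          change l * (b * (b * u * s)) = _
          group
        have e2 : l * (b⁻¹ * (t * s)) = l * (u * s) := by
          change l * (b⁻¹ * (b * u * s)) = _
          group
        rw [e1, e2]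
        exact this
      · have hl' : l * t ∈ L' := Finset.mem_image.2 ⟨(l, t), Finset.mem_product.2 ⟨hl, hT⟩, rfl⟩
        have := hB b' hb' (l * t) hl'
        have e1 : l * (t * b' * t⁻¹ * (t * s)) = l * t * (b' * s) := by group
        have e2 : l * ((t * b' * t⁻¹)⁻¹ * (t * s)) = l * t * (b'⁻¹ * s) := by group
        rw [e1, e2]
        exact this

/-- Large monochromatic symmetric sets. -/
theorem PairOut.large (h : PairOut G) (k : ℕ) (c : G → Fin k) (n : ℕ) :
    ∃ (A : Finset G) (g : G), n ≤ A.card ∧ (∀ a ∈ A, ∀ b ∈ A, c a = c b) ∧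
      (A : Set G) = (fun x => g * x⁻¹ * g) '' (A : Set G) := by
  classical
  obtain ⟨s, B, hcard, -, hB⟩ := h.centre k (k * n) {1} ∅ c
  have hB' : ∀ b ∈ B, c (b * s) = c (b⁻¹ * s) := by
    intro b hb
    have := hB b hb 1 (Finset.mem_singleton_self _)
    simpa using this
  have hk : 0 < k := lt_of_le_of_lt (Nat.zero_le _) (c 1).2
  obtain ⟨y, -, hy⟩ := Finset.exists_le_card_fiber_of_mul_le_card_of_maps_to
    (s := B) (t := (Finset.univ : Finset (Fin k))) (f := fun b => c (b * s)) (n := n)
    (fun b _ => Finset.mem_univ _) ⟨⟨0, hk⟩, Finset.mem_univ _⟩ (by simp [hcard])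
  set B' := B.filter (fun b => c (b * s) = y) with hB'def
  have hmem : ∀ b ∈ B', c (b * s) = y ∧ c (b⁻¹ * s) = y := by
    intro b hb
    rw [hB'def, Finset.mem_filter] at hb
    exact ⟨hb.2, (hB' b hb.1).symm.trans hb.2⟩
  refine ⟨B'.image (fun b => b * s) ∪ B'.image (fun b => b⁻¹ * s), s, ?_, ?_, ?_⟩
  · refine hy.trans ?_
    calc B'.card = (B'.image (fun b => b * s)).card :=
          (Finset.card_image_of_injective _ (mul_left_injective s)).symm
      _ ≤ _ := Finset.card_le_card Finset.subset_union_left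
  · have hcol : ∀ a ∈ B'.image (fun b => b * s) ∪ B'.image (fun b => b⁻¹ * s), c a = y := by
      intro a ha
      rw [Finset.mem_union, Finset.mem_image, Finset.mem_image] at ha
      rcases ha with ⟨b, hb, rfl⟩ | ⟨b, hb, rfl⟩
      · exact (hmem b hb).1
      · exact (hmem b hb).2
    intro a ha b hb
    rw [hcol a ha, hcol b hb]
  · ext x
    simp only [Finset.coe_union, Finset.coe_image, Set.mem_union, Set.mem_image, Finset.mem_coe]
    constructor
    · rintro (⟨b, hb, rfl⟩ | ⟨b, hb, rfl⟩)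
      · exact ⟨b⁻¹ * s, Or.inr ⟨b, hb, rfl⟩, by group⟩
      · exact ⟨b * s, Or.inl ⟨b, hb, rfl⟩, by group⟩
    · rintro ⟨y', (⟨b, hb, rfl⟩ | ⟨b, hb, rfl⟩), rfl⟩
      · exact Or.inr ⟨b, hb, by group⟩
      · exact Or.inl ⟨b, hb, by group⟩

/-- A left translation by `y ≠ 1` has a proper 3-colouring. -/
theorem exists_three_colouring (y : G) (hy : y ≠ 1) : ∃ d : G → Fin 3, ∀ x, d (y * x) ≠ d x := by
  classical
  let r : G → G := fun x => Quotient.out (Quotient.mk (QuotientGroup.rightRel (Subgroup.zpowers y)) x)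
  have hr : ∀ x, ∃ m : ℤ, y ^ m = x * (r x)⁻¹ := by
    intro x
    have h1 : (QuotientGroup.rightRel (Subgroup.zpowers y)) (r x) x :=
      Quotient.exact (Quotient.out_eq _)
    rw [QuotientGroup.rightRel_apply] at h1
    obtain ⟨m, hm⟩ := Subgroup.mem_zpowers_iff.1 h1
    exact ⟨m, hm⟩
  have hry : ∀ x, r (y * x) = r x := by
    intro x
    have : (Quotient.mk (QuotientGroup.rightRel (Subgroup.zpowers y)) (y * x)) =
        Quotient.mk (QuotientGroup.rightRel (Subgroup.zpowers y)) x := by
      apply Quotient.sound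
      change (QuotientGroup.rightRel (Subgroup.zpowers y)) (y * x) x
      rw [QuotientGroup.rightRel_apply]
      have : x * (y * x)⁻¹ = y⁻¹ := by group
      rw [this]
      exact Subgroup.inv_mem _ (Subgroup.mem_zpowers y)
    change Quotient.out _ = Quotient.out _
    rw [this]
  choose m hm using hr
  set N : ℤ := (orderOf y : ℤ) with hN
  have hmod : ∀ x, m (y * x) % N = (m x + 1) % N := by
    intro x
    have h1 : y ^ (m (y * x)) = y ^ (m x + 1) := by
      rw [hm, hry, add_comm, zpow_add, hm, zpow_one]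
      group
    exact (zpow_eq_zpow_iff_modEq.1 h1)
  have hN1 : N ≠ 1 := by
    rw [hN]
    intro h
    have : orderOf y = 1 := by exact_mod_cast h
    exact hy (orderOf_eq_one_iff.1 this)
  have hN0 : 0 ≤ N := by rw [hN]; positivity
  refine ⟨fun x => if N ≠ 0 ∧ m x % N = N - 1 then 2 else
    if (m x % N) % 2 = 0 then 0 else 1, ?_⟩
  intro x
  rcases eq_or_lt_of_le hN0 with h0 | hpos
  · have h0' : N = 0 := h0.symm
    have h1 := hmod x
    rw [h0'] at h1
    simp only [Int.emod_zero] at h1
    simp only [h0', ne_eq, not_true_eq_false, false_and, if_false, Int.emod_zero, h1]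
    by_cases h2 : m x % 2 = 0
    · have h3 : ¬ (m x + 1) % 2 = 0 := by omega
      simp [h2, h3]
    · have h3 : (m x + 1) % 2 = 0 := by omega
      simp [h2, h3]
  · have hge : 2 ≤ N := by omega
    have h1 := hmod x
    have ha := Int.emod_nonneg (m x) (by omega : N ≠ 0)
    have hb := Int.emod_lt_of_pos (m x) (by omega : 0 < N)
    have hne : N ≠ 0 := by omega
    by_cases hl : m x % N = N - 1
    · have h2 : (m x + 1) % N = 0 := by
        have : (m x + 1) % N = (m x % N + 1) % N := by rw [Int.emod_add_emod]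
        rw [this, hl]
        simp
      have h3 : ¬ ((0 : ℤ) = N - 1) := by omega
      simp only [h1, h2, hl, hne, ne_eq, not_false_eq_true, true_and, h3, if_false, if_true]
      decide
    · have h2 : (m x + 1) % N = m x % N + 1 := by
        have : (m x + 1) % N = (m x % N + 1) % N := by rw [Int.emod_add_emod]
        rw [this]
        exact Int.emod_eq_of_lt (by omega) (by omega)
      simp only [h1, h2, hl, hne, ne_eq, not_false_eq_true, true_and, if_false]
      by_cases h4 : m x % N + 1 = N - 1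
      · simp only [h4, if_true]
        split_ifs <;> decide
      · simp only [h4, if_false]
        by_cases h5 : m x % N % 2 = 0
        · have h6 : ¬ (m x % N + 1) % 2 = 0 := by omega
          simp [h5, h6]
        · have h6 : (m x % N + 1) % 2 = 0 := by omega
          simp [h5, h6]

/-- Nontrivial pairs in all finite colourings suffice. -/
theorem pairOut_of_pairs (h : ∀ (k : ℕ) (c : G → Fin k), ∃ x z : G, z * z ≠ 1 ∧
    c (z * z * x) = c x) : PairOut G := by
  classical
  intro k c F
  have hd : ∀ y : G, ∃ d : G → Fin 3, y ≠ 1 → ∀ x, d (y * x) ≠ d x := by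
    intro y
    by_cases hy : y = 1
    · exact ⟨fun _ => 0, fun h => absurd hy h⟩
    · obtain ⟨d, hd⟩ := exists_three_colouring y hy
      exact ⟨d, fun _ => hd⟩
  choose d hd using hd
  obtain ⟨m, ⟨e⟩⟩ := Finite.exists_equiv_fin (Fin k × (F → Fin 3))
  obtain ⟨x, z, hz, hc⟩ := h m (fun g => e (c g, fun f => d (f.1 * f.1) g))
  have hc' := e.injective hc
  rw [Prod.mk.injEq] at hc'
  refine ⟨x, z, fun hzF => ?_, hc'.1⟩
  exact hd (z * z) hz x (congrFun hc'.2 ⟨z, hzF⟩)

/-- Infinitely many involutions. -/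
theorem pairOut_of_infinite (h : {x : G | x * x = 1}.Infinite) : PairOut G := by
  intro k c F
  obtain ⟨z, hz, hzF⟩ := h.exists_notMem_finset F
  exact ⟨1, z, hzF, by rw [show z * z = 1 from hz, one_mul]⟩

/-- Elements of unbounded order. -/
theorem pairOut_of_unbounded (h : ∀ N : ℕ, ∃ x : G, ∀ i, 0 < i → i ≤ N → x ^ i ≠ 1) :
    PairOut G := by
  apply pairOut_of_pairs
  intro k c
  obtain ⟨x, hx⟩ := h (2 * k)
  obtain ⟨i, j, hij, hc⟩ := Fintype.exists_ne_map_eq_of_card_lt
    (fun i : Fin (k + 1) => c (x ^ (2 * (i : ℕ)))) (by simp)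
  have key : ∀ i j : Fin (k + 1), (i : ℕ) < j → c (x ^ (2 * (i : ℕ))) = c (x ^ (2 * (j : ℕ))) →
      ∃ x z : G, z * z ≠ 1 ∧ c (z * z * x) = c x := by
    intro i j hlt hc
    refine ⟨x ^ (2 * (i : ℕ)), x ^ ((j : ℕ) - i), ?_, ?_⟩
    · rw [← pow_add]
      apply hx
      · omega
      · have := j.2
        omega
    · rw [← pow_add, ← pow_add, hc]
      congr 2
      omega
  rcases lt_trichotomy (i : ℕ) (j : ℕ) with hlt | heq | hlt
  · exact key i j hlt hc
  · exact absurd (Fin.ext heq) hij
  · exact key j i hlt hc.symm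

/-- Infinite groups without involutions. -/
theorem pairOut_of_no_involution [Infinite G] (h : ∀ x : G, x * x = 1 → x = 1) : PairOut G := by
  by_cases hu : ∀ N : ℕ, ∃ x : G, ∀ i, 0 < i → i ≤ N → x ^ i ≠ 1
  · exact pairOut_of_unbounded hu
  · push Not at hu
    obtain ⟨N, hN⟩ := hu
    apply pairOut_of_pairs
    intro k c
    obtain ⟨x, y, hxy, hc⟩ := Finite.exists_ne_map_eq_of_infinite c
    have hne : x * y⁻¹ ≠ 1 := fun h => hxy (mul_inv_eq_one.1 h)
    obtain ⟨i, hi, -, hxi⟩ := hN (x * y⁻¹)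
    have hfin : 0 < orderOf (x * y⁻¹) := orderOf_pos_iff.2 (isOfFinOrder_iff_pow_eq_one.2 ⟨i, hi, hxi⟩)
    have hodd : ¬ 2 ∣ orderOf (x * y⁻¹) := by
      rintro ⟨m, hm⟩
      have h1 : (x * y⁻¹) ^ m * (x * y⁻¹) ^ m = 1 := by
        rw [← pow_add, ← two_mul, ← hm, pow_orderOf_eq_one]
      have h2 := h _ h1
      have h3 := orderOf_dvd_of_pow_eq_one h2
      rw [hm] at h3
      have h4 : 0 < m := by omega
      have := Nat.le_of_dvd h4 h3
      omega
    obtain ⟨m, hm⟩ : ∃ m, orderOf (x * y⁻¹) = 2 * m + 1 :=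
      ⟨orderOf (x * y⁻¹) / 2, by omega⟩
    have hz : (x * y⁻¹) ^ (m + 1) * (x * y⁻¹) ^ (m + 1) = x * y⁻¹ := by
      rw [← pow_add]
      have : m + 1 + (m + 1) = orderOf (x * y⁻¹) + 1 := by omega
      rw [this, pow_succ, pow_orderOf_eq_one, one_mul]
    refine ⟨y, (x * y⁻¹) ^ (m + 1), ?_, ?_⟩
    · rw [hz]; exact hne
    · rw [hz, inv_mul_cancel_right, hc]

/-- Infinite commutative groups. -/
theorem pairOut_of_comm [Infinite G] (h : ∀ x y : G, x * y = y * x) : PairOut G := by
  by_cases hinf : {x : G | x * x = 1}.Infinite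
  · exact pairOut_of_infinite hinf
  · rw [Set.not_infinite] at hinf
    apply pairOut_of_pairs
    intro k c
    have hS : (Set.range (fun x : G => x * x)).Infinite := by
      intro hfin
      have : (Set.univ : Set G).Finite := by
        refine Set.Finite.subset (hfin.preimage' (f := fun x : G => x * x) ?_) ?_
        · intro b hb
          obtain ⟨a, rfl⟩ := hb
          refine (hinf.image (fun x => x * a)).subset ?_
          intro y hy
          refine ⟨y * a⁻¹, ?_, by group⟩
          have hy' : y * y = a * a := hy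
          change y * a⁻¹ * (y * a⁻¹) = 1
          calc y * a⁻¹ * (y * a⁻¹) = y * (a⁻¹ * y) * a⁻¹ := by group
            _ = y * (y * a⁻¹) * a⁻¹ := by rw [h a⁻¹ y]
            _ = (y * y) * (a * a)⁻¹ := by group
            _ = 1 := by rw [hy', mul_inv_cancel]
        · intro x _
          exact ⟨x, rfl⟩
      exact Set.infinite_univ this
    obtain ⟨x, hx, y, hy, hxy, hc⟩ := hS.exists_ne_map_eq_of_mapsTo (f := c) (t := Set.univ)
      (fun _ _ => Set.mem_univ _) Set.finite_univ
    obtain ⟨a, rfl⟩ := hx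
    obtain ⟨b, rfl⟩ := hy
    have hz : a * b⁻¹ * (a * b⁻¹) = a * a * (b * b)⁻¹ := by
      calc a * b⁻¹ * (a * b⁻¹) = a * (b⁻¹ * a) * b⁻¹ := by group
        _ = a * (a * b⁻¹) * b⁻¹ := by rw [h b⁻¹ a]
        _ = a * a * (b * b)⁻¹ := by group
    refine ⟨b * b, a * b⁻¹, ?_, ?_⟩
    · rw [hz]
      intro h1
      exact hxy (mul_inv_eq_one.1 h1)
    · rw [hz, inv_mul_cancel_right]
      exact hc

/-- Conversely, large symmetric monochromatic sets give pairs. -/
theorem pairOut_of_large (h : ∀ (k : ℕ) (c : G → Fin k) (n : ℕ),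
    ∃ (A : Finset G) (g : G), n ≤ A.card ∧ (∀ a ∈ A, ∀ b ∈ A, c a = c b) ∧
      (A : Set G) = (fun x => g * x⁻¹ * g) '' (A : Set G)) : PairOut G := by
  classical
  intro k c F
  obtain ⟨A, g, hcard, hmono, hsym⟩ := h k c (F.card + 1)
  have hinj : Function.Injective (fun b : G => b * g⁻¹) := mul_left_injective _
  have : ∃ b ∈ A, b * g⁻¹ ∉ F := by
    by_contra hcon
    push Not at hcon
    have h1 : A.image (fun b => b * g⁻¹) ⊆ F := by
      intro y hy
      obtain ⟨b, hb, rfl⟩ := Finset.mem_image.1 hy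
      exact hcon b hb
    have h2 := Finset.card_le_card h1
    rw [Finset.card_image_of_injective _ hinj] at h2
    omega
  obtain ⟨b, hb, hbF⟩ := this
  have hb' : g * b⁻¹ * g ∈ A := by
    have h1 : g * b⁻¹ * g ∈ (fun x => g * x⁻¹ * g) '' (A : Set G) := ⟨b, hb, rfl⟩
    rw [← hsym] at h1
    exact h1
  refine ⟨g * b⁻¹ * g, b * g⁻¹, hbF, ?_⟩
  have e : b * g⁻¹ * (b * g⁻¹) * (g * b⁻¹ * g) = b := by group
  rw [e]
  exact hmono _ hb _ hb'

/-- Passing to overgroups. -/
theorem PairOut.of_subgroup (H : Subgroup G) (h : PairOut H) : PairOut G := by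
  classical
  intro k c F
  obtain ⟨x, z, hz, hc⟩ := h k (fun x => c (x : G)) (F.preimage Subtype.val
    Subtype.val_injective.injOn)
  refine ⟨x, z, fun hF => hz ?_, by simpa using hc⟩
  rw [Finset.mem_preimage]
  exact hF

end core

end Pool.Agent.Lib.MP_76c039_co
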