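import Mathlib

section

set_option autoImplicit false
set_option linter.unusedSectionVars false

/-!
Limits of colours of products of signed letters along an idempotent ultrafilter.
-/

namespace Pool.Agent.Lib.MP_76c039_co

open Filter

section words

variable {G : Type*} [Group G]

/-- An idempotent ultrafilter all of whose members are infinite. -/
theorem exists_idem (G : Type*) [Group G] [Infinite G] : ∃ p : Ultrafilter G,
    (∀ F : Set G, F.Finite → ∀ᶠ x in (p : Filter G), x ∉ F) ∧
    ∀ P : G → Prop, (∀ᶠ x in (p : Filter G), P x) ↔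
      ∀ᶠ x in (p : Filter G), ∀ᶠ y in (p : Filter G), P (x * y) := by
  let inst : Semigroup (Ultrafilter G) := Ultrafilter.semigroup
  have hmul : ∀ (U V : Ultrafilter G) (P : G → Prop), (∀ᶠ m in ((U * V : Ultrafilter G) : Filter G), P m) ↔
      ∀ᶠ m in (U : Filter G), ∀ᶠ m' in (V : Filter G), P (m * m') := by
    intro U V P
    exact Ultrafilter.eventually_mul U V P
  let S : Set (Ultrafilter G) := {p | (p : Filter G) ≤ cofinite}
  have hS : ∀ p : Ultrafilter G, p ∈ S ↔ ∀ F : Set G, F.Finite → ∀ᶠ x in (p : Filter G), x ∉ F := by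
    intro p
    constructor
    · intro h F hF
      exact h hF.compl_mem_cofinite
    · intro h s hs
      have := h sᶜ (by simpa using hs)
      filter_upwards [this] with x hx
      simpa using hx
  have hne : S.Nonempty := ⟨hyperfilter G, by simp only [S, Set.mem_ofPred_eq]; exact hyperfilter_le_cofinite⟩
  have hclosed : IsClosed S := by
    have : S = ⋂ F ∈ {F : Set G | F.Finite}, {p : Ultrafilter G | Fᶜ ∈ p} := by
      ext p
      rw [hS]
      simp only [Set.mem_ofPred_eq, Set.mem_iInter]
      rfl
    rw [this]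
    exact isClosed_biInter fun F _ => ultrafilter_isClosed_basic _
  obtain ⟨p, hp, hpp⟩ := exists_idempotent_in_compact_subsemigroup
    (fun V : Ultrafilter G => Ultrafilter.continuous_mul_left V) S hne hclosed.isCompact (by
      intro U hU V hV
      rw [hS] at hV ⊢
      intro F hF
      rw [hmul]
      refine Eventually.of_forall fun x => ?_
      have := hV ((fun y => x * y) ⁻¹' F) (hF.preimage (mul_right_injective x).injOn)
      exact this)
  refine ⟨p, (hS p).1 hp, fun P => ?_⟩
  rw [← hmul, hpp]

/-- For `p`-almost all `y₁`, for `p`-almost all `y₂`, …, the list of the `yᵢ` satisfies `P`. -/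
def Ev (p : Ultrafilter G) : ℕ → (List G → Prop) → Prop
  | 0, P => P []
  | m + 1, P => ∀ᶠ y in (p : Filter G), Ev p m (fun l => P (y :: l))

theorem Ev.mono {p : Ultrafilter G} {m : ℕ} : ∀ {P Q : List G → Prop}, Ev p m P →
    (∀ l, l.length = m → P l → Q l) → Ev p m Q := by
  induction m with
  | zero => intro P Q h hPQ; exact hPQ [] rfl h
  | succ m ih =>
    intro P Q h hPQ
    refine Eventually.mono (show ∀ᶠ y in (p : Filter G), Ev p m (fun l => P (y :: l)) from h) ?_
    intro y hy
    exact ih hy fun l hl => hPQ (y :: l) (by simp [hl])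

theorem Ev.and {p : Ultrafilter G} {m : ℕ} : ∀ {P Q : List G → Prop}, Ev p m P → Ev p m Q →
    Ev p m (fun l => P l ∧ Q l) := by
  induction m with
  | zero => intro P Q h h'; exact ⟨h, h'⟩
  | succ m ih =>
    intro P Q h h'
    filter_upwards [show ∀ᶠ y in (p : Filter G), Ev p m (fun l => P (y :: l)) from h,
      show ∀ᶠ y in (p : Filter G), Ev p m (fun l => Q (y :: l)) from h'] with y hy hy'
    exact ih hy hy'

theorem Ev.true {p : Ultrafilter G} {m : ℕ} : ∀ {P : List G → Prop}, (∀ l, P l) → Ev p m P := by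
  induction m with
  | zero => intro P h; exact h []
  | succ m ih =>
    intro P h
    exact Eventually.of_forall fun y => ih fun l => h (y :: l)

theorem Ev.forall_finset {p : Ultrafilter G} {m : ℕ} {ι : Type*} (T : Finset ι)
    {P : ι → List G → Prop} (h : ∀ i ∈ T, Ev p m (P i)) :
    Ev p m (fun l => ∀ i ∈ T, P i l) := by
  classical
  induction T using Finset.induction_on with
  | empty => exact Ev.true (by simp)
  | insert a T ha ih =>
    have h1 := (h a (Finset.mem_insert_self _ _)).and (ih fun i hi => h i (Finset.mem_insert_of_mem hi))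
    refine h1.mono ?_
    rintro l - ⟨h2, h3⟩ i hi
    rcases Finset.mem_insert.1 hi with rfl | hi
    · exact h2
    · exact h3 i hi

theorem Ev.exists {p : Ultrafilter G} {m : ℕ} : ∀ {P : List G → Prop}, Ev p m P →
    ∃ l : List G, l.length = m ∧ P l := by
  induction m with
  | zero => intro P h; exact ⟨[], rfl, h⟩
  | succ m ih =>
    intro P h
    obtain ⟨y, hy⟩ := (show ∀ᶠ y in (p : Filter G), Ev p m (fun l => P (y :: l)) from h).exists
    obtain ⟨l, hl, hP⟩ := ih hy
    exact ⟨y :: l, by simp [hl], hP⟩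

theorem Ev.exists_color {p : Ultrafilter G} {α : Type*} [Finite α] {m : ℕ} :
    ∀ f : List G → α, ∃ a, Ev p m (fun l => f l = a) := by
  induction m with
  | zero => intro f; exact ⟨f [], rfl⟩
  | succ m ih =>
    intro f
    choose g hg using fun y : G => ih (fun l => f (y :: l))
    have : ∃ a, ∀ᶠ y in (p : Filter G), g y = a := by
      by_contra hcon
      push Not at hcon
      have h1 : ∀ a, ∀ᶠ y in (p : Filter G), g y ≠ a := hcon
      have h2 : ∀ᶠ y in (p : Filter G), ∀ a, g y ≠ a := Filter.eventually_all.2 h1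
      obtain ⟨y, hy⟩ := h2.exists
      exact hy (g y) rfl
    obtain ⟨a, ha⟩ := this
    refine ⟨a, ?_⟩
    change ∀ᶠ y in (p : Filter G), Ev p m (fun l => f (y :: l) = a)
    filter_upwards [ha] with y hy
    rw [← hy]
    exact hg y

/-- Many values of the `i`-th variable. -/
theorem Ev.many {p : Ultrafilter G} (hp : ∀ F : Set G, F.Finite → ∀ᶠ x in (p : Filter G), x ∉ F)
    (n : ℕ) : ∀ (i m : ℕ) (P : List G → Prop), i < m → Ev p m P →
    ∃ (l l' : List G) (T : Finset G), l.length = i ∧ T.card = n ∧ ∀ t ∈ T, P (l ++ t :: l') := by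
  intro i
  induction i with
  | zero =>
    intro m P him h
    obtain ⟨m, rfl⟩ : ∃ m', m = m' + 1 := ⟨m - 1, by omega⟩
    have h : ∀ᶠ y in (p : Filter G), Ev p m (fun l => P (y :: l)) := h
    have hinf : {y : G | Ev p m (fun l => P (y :: l))}.Infinite := by
      intro hfin
      obtain ⟨y, h1, h2⟩ := (h.and (hp _ hfin)).exists
      exact h2 h1
    obtain ⟨T, hT, hcard⟩ := hinf.exists_subset_card_eq n
    obtain ⟨l', -, hl'⟩ := (Ev.forall_finset T (P := fun t l => P (t :: l)) fun t ht => hT ht).exists
    exact ⟨[], l', T, rfl, hcard, fun t ht => hl' t ht⟩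
  | succ i ih =>
    intro m P him h
    obtain ⟨m, rfl⟩ : ∃ m', m = m' + 1 := ⟨m - 1, by omega⟩
    obtain ⟨y, hy⟩ := (show ∀ᶠ y in (p : Filter G), Ev p m (fun l => P (y :: l)) from h).exists
    obtain ⟨l, l', T, hl, hT, hP⟩ := ih m _ (by omega) hy
    exact ⟨y :: l, l', T, by simp [hl], hT, hP⟩

/-- Multiply the entries `j` and `j + 1`. -/
def mergeAt : ℕ → List G → List G
  | 0, a :: b :: l => (a * b) :: l
  | 0, l => l
  | _ + 1, [] => []
  | j + 1, a :: l => a :: mergeAt j l

theorem Ev.merge {p : Ultrafilter G} (hp : ∀ P : G → Prop, (∀ᶠ x in (p : Filter G), P x) ↔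
      ∀ᶠ x in (p : Filter G), ∀ᶠ y in (p : Filter G), P (x * y)) :
    ∀ (j m : ℕ) (P : List G → Prop), j < m →
      (Ev p (m + 1) (fun l => P (mergeAt j l)) ↔ Ev p m P) := by
  intro j
  induction j with
  | zero =>
    intro m P hj
    obtain ⟨m, rfl⟩ : ∃ m', m = m' + 1 := ⟨m - 1, by omega⟩
    change (∀ᶠ a in (p : Filter G), ∀ᶠ b in (p : Filter G), Ev p m (fun l => P ((a * b) :: l))) ↔
      ∀ᶠ a in (p : Filter G), Ev p m (fun l => P (a :: l))
    exact (hp fun a => Ev p m (fun l => P (a :: l))).symm
  | succ j ih =>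
    intro m P hj
    obtain ⟨m, rfl⟩ : ∃ m', m = m' + 1 := ⟨m - 1, by omega⟩
    change (∀ᶠ a in (p : Filter G), Ev p (m + 1) (fun l => P (a :: mergeAt j l))) ↔
      ∀ᶠ a in (p : Filter G), Ev p m (fun l => P (a :: l))
    refine Filter.eventually_congr (Eventually.of_forall fun a => ?_)
    exact ih m (fun l => P (a :: l)) (by omega)

/-- Signed letters. -/
abbrev Word := List (ℕ × Bool)

/-- The value of a letter. -/
def lval (l : List G) (a : ℕ × Bool) : G := if a.2 then l.getD a.1 1 else (l.getD a.1 1)⁻¹

/-- The value of a word. -/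
def ev (w : Word) (l : List G) : G := (w.map (lval l)).prod

/-- Replace the letter `j` by the product of `j` and `j + 1`. -/
def expand (j : ℕ) (w : Word) : Word :=
  w.flatMap fun a => if a.1 < j then [a] else
    if a.1 = j then (if a.2 then [(j, true), (j + 1, true)] else [(j + 1, false), (j, false)])
    else [(a.1 + 1, a.2)]

theorem getD_mergeAt (j : ℕ) : ∀ (l : List G) (i : ℕ), (mergeAt j l).getD i 1 =
    if i < j then l.getD i 1 else
      if i = j then l.getD j 1 * l.getD (j + 1) 1 else l.getD (i + 1) 1 := by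
  induction j with
  | zero =>
    intro l i
    match l, i with
    | [], i => simp [mergeAt]
    | [a], 0 => simp [mergeAt]
    | [a], i + 1 => simp [mergeAt]
    | a :: b :: l, 0 => simp [mergeAt]
    | a :: b :: l, i + 1 => simp [mergeAt]
  | succ j ih =>
    intro l i
    match l, i with
    | [], i => simp [mergeAt]
    | a :: l, 0 => simp [mergeAt]
    | a :: l, i + 1 =>
      simp only [mergeAt, List.getD_cons_succ, ih]
      simp only [Nat.add_lt_add_iff_right, Nat.add_right_cancel_iff]

theorem ev_mergeAt (j : ℕ) (w : Word) (l : List G) : ev w (mergeAt j l) = ev (expand j w) l := by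
  induction w with
  | nil => simp [ev, expand]
  | cons a w ih =>
    have h1 : ev (a :: w) (mergeAt j l) = lval (mergeAt j l) a * ev w (mergeAt j l) := by
      simp [ev]
    have h2 : expand j (a :: w) = (if a.1 < j then [a] else
        if a.1 = j then (if a.2 then [(j, true), (j + 1, true)] else [(j + 1, false), (j, false)])
        else [(a.1 + 1, a.2)]) ++ expand j w := by
      simp [expand]
    have h3 : ∀ u v : Word, ev (u ++ v) l = ev u l * ev v l := by
      intro u v
      simp [ev]
    rw [h1, h2, h3, ih]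
    congr 1
    obtain ⟨i, s⟩ := a
    rw [lval, getD_mergeAt]
    by_cases hi : i < j
    · simp [hi, ev, lval]
    · by_cases hij : i = j
      · subst hij
        cases s <;> simp [ev, lval]
      · cases s <;> simp [hi, hij, ev, lval]

theorem ev_append (u v : Word) (l : List G) : ev (u ++ v) l = ev u l * ev v l := by
  simp [ev]

/-- The formal inverse. -/
def winv (w : Word) : Word := (w.map fun a => (a.1, !a.2)).reverse

theorem ev_winv (w : Word) (l : List G) : ev (winv w) l = (ev w l)⁻¹ := by
  induction w with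
  | nil => simp [ev, winv]
  | cons a w ih =>
    have h1 : winv (a :: w) = winv w ++ [(a.1, !a.2)] := by simp [winv]
    rw [h1, ev_append, ih]
    have h2 : ev (a :: w) l = lval l a * ev w l := by simp [ev]
    rw [h2, mul_inv_rev]
    congr 1
    obtain ⟨i, s⟩ := a
    cases s <;> simp [ev, lval]

theorem ev_congr {w : Word} {i : ℕ} (hw : ∀ a ∈ w, a.1 ≠ i) {l l' : List G} (hl : l.length = i)
    (t s : G) : ev w (l ++ t :: l') = ev w (l ++ s :: l') := by
  have : w.map (lval (l ++ t :: l')) = w.map (lval (l ++ s :: l')) := by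
    apply List.map_congr_left
    intro a ha
    have h1 := hw a ha
    have h2 : (l ++ t :: l').getD a.1 1 = (l ++ s :: l').getD a.1 1 := by
      rcases lt_or_gt_of_ne h1 with h | h
      · rw [List.getD_append _ _ _ _ (by omega), List.getD_append _ _ _ _ (by omega)]
      · rw [List.getD_append_right _ _ _ _ (by omega), List.getD_append_right _ _ _ _ (by omega)]
        obtain ⟨d, hd⟩ : ∃ d, a.1 - l.length = d + 1 := ⟨a.1 - l.length - 1, by omega⟩
        rw [hd]
        simp
    simp only [lval, h2]
  rw [ev, this, ev]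

variable {α : Type*} [Finite α]

/-- The limit colour of a word in `m` letters. -/
noncomputable def col (p : Ultrafilter G) (c : G → α) (m : ℕ) (w : Word) : α :=
  (Ev.exists_color (p := p) (m := m) (fun l => c (ev w l))).choose

theorem col_spec (p : Ultrafilter G) (c : G → α) (m : ℕ) (w : Word) :
    Ev p m (fun l => c (ev w l) = col p c m w) :=
  (Ev.exists_color (p := p) (m := m) (fun l => c (ev w l))).choose_spec

theorem col_unique {p : Ultrafilter G} {c : G → α} {m : ℕ} {w : Word} {a : α}
    (h : Ev p m (fun l => c (ev w l) = a)) : col p c m w = a := by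
  obtain ⟨l, -, h1, h2⟩ := ((col_spec p c m w).and h).exists
  rw [← h1, h2]

theorem col_expand {p : Ultrafilter G} (hp : ∀ P : G → Prop, (∀ᶠ x in (p : Filter G), P x) ↔
      ∀ᶠ x in (p : Filter G), ∀ᶠ y in (p : Filter G), P (x * y)) (c : G → α) {j m : ℕ}
    (hj : j < m) (w : Word) : col p c (m + 1) (expand j w) = col p c m w := by
  apply col_unique
  have h := (Ev.merge hp j m (fun l => c (ev w l) = col p c m w) hj).2 (col_spec p c m w)
  refine h.mono ?_
  intro l _ h1
  rw [← ev_mergeAt]
  exact h1

/-- Iterated expansion. -/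
def expands : List ℕ → Word → Word
  | [], w => w
  | j :: js, w => expand j (expands js w)

/-- All expansions are at existing letters. -/
def okjs (m : ℕ) : List ℕ → Bool
  | [] => true
  | j :: js => decide (j < m + js.length) && okjs m js

theorem col_expands {p : Ultrafilter G} (hp : ∀ P : G → Prop, (∀ᶠ x in (p : Filter G), P x) ↔
      ∀ᶠ x in (p : Filter G), ∀ᶠ y in (p : Filter G), P (x * y)) (c : G → α) (m : ℕ) (w : Word)
    (js : List ℕ) (hjs : okjs m js = true) :
    col p c (m + js.length) (expands js w) = col p c m w := by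
  induction js with
  | nil => rfl
  | cons j js ih =>
    rw [okjs, Bool.and_eq_true, decide_eq_true_eq] at hjs
    rw [← ih hjs.2, expands, ← col_expand hp c hjs.1]
    rfl

/-- Reversing and inverting a part changes the colour, unless there are large symmetric sets. -/
theorem col_ne {p : Ultrafilter G} (hp : ∀ F : Set G, F.Finite → ∀ᶠ x in (p : Filter G), x ∉ F)
    (c : G → α) (n : ℕ)
    (hc : ¬ ∃ (A : Finset G) (g : G), n ≤ A.card ∧ (∀ a ∈ A, ∀ b ∈ A, c a = c b) ∧
      (A : Set G) = (fun x => g * x⁻¹ * g) '' (A : Set G))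
    (m : ℕ) (u v w : Word) (i : ℕ) (s : Bool) (him : i < m) (hu : ∀ a ∈ u, a.1 ≠ i)
    (hv : ∀ a ∈ v, a.1 ≠ i) (hw : ∀ a ∈ w, a.1 ≠ i) :
    col p c m (u ++ ((i, s) :: v) ++ w) ≠ col p c m (u ++ winv ((i, s) :: v) ++ w) := by
  classical
  intro heq
  apply hc
  obtain ⟨l, l', T, hl, hT, hP⟩ := Ev.many hp n i m _ him
    ((col_spec p c m (u ++ ((i, s) :: v) ++ w)).and (col_spec p c m (u ++ winv ((i, s) :: v) ++ w)))
  set a := col p c m (u ++ ((i, s) :: v) ++ w) with ha
  rw [← heq] at hP
  -- the parts not containing the letter `i` do not depend on `t`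
  let U : G := ev u (l ++ 1 :: l')
  let V : G := ev v (l ++ 1 :: l')
  let W : G := ev w (l ++ 1 :: l')
  have hU : ∀ t, ev u (l ++ t :: l') = U := fun t => ev_congr hu hl t 1
  have hV : ∀ t, ev v (l ++ t :: l') = V := fun t => ev_congr hv hl t 1
  have hW : ∀ t, ev w (l ++ t :: l') = W := fun t => ev_congr hw hl t 1
  let z : G → G := fun t => (if s then t else t⁻¹) * V
  have hz : ∀ t, ev ((i, s) :: v) (l ++ t :: l') = z t := by
    intro t
    have h1 : ev ((i, s) :: v) (l ++ t :: l') = lval (l ++ t :: l') (i, s) * ev v (l ++ t :: l') := by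
      simp [ev]
    rw [h1, hV]
    have h2 : (l ++ t :: l').getD i 1 = t := by
      rw [List.getD_append_right _ _ _ _ (by omega)]
      simp [hl]
    simp only [lval, h2, z]
  have hzinj : Function.Injective z := by
    intro t t' h
    have h1 := mul_right_cancel h
    cases s
    · simpa using h1
    · simpa using h1
  have hcol : ∀ t ∈ T, c (U * z t * W) = a ∧ c (U * (z t)⁻¹ * W) = a := by
    intro t ht
    have h := hP t ht
    rw [ev_append, ev_append, ev_append, ev_append, ev_winv, hU, hW, hz] at h
    exact h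
  refine ⟨T.image (fun t => U * z t * W) ∪ T.image (fun t => U * (z t)⁻¹ * W), U * W, ?_, ?_, ?_⟩
  · calc n = T.card := hT.symm
      _ = (T.image (fun t => U * z t * W)).card := by
          rw [Finset.card_image_of_injective]
          intro t t' h
          exact hzinj (mul_left_cancel (mul_right_cancel h))
      _ ≤ _ := Finset.card_le_card Finset.subset_union_left
  · have hA : ∀ x ∈ T.image (fun t => U * z t * W) ∪ T.image (fun t => U * (z t)⁻¹ * W), c x = a := by
      intro x hx
      rw [Finset.mem_union, Finset.mem_image, Finset.mem_image] at hx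
      rcases hx with ⟨t, ht, rfl⟩ | ⟨t, ht, rfl⟩
      · exact (hcol t ht).1
      · exact (hcol t ht).2
    intro x hx y hy
    rw [hA x hx, hA y hy]
  · ext x
    simp only [Finset.coe_union, Finset.coe_image, Set.mem_union, Set.mem_image, Finset.mem_coe]
    constructor
    · rintro (⟨t, ht, rfl⟩ | ⟨t, ht, rfl⟩)
      · exact ⟨U * (z t)⁻¹ * W, Or.inr ⟨t, ht, rfl⟩, by group⟩
      · exact ⟨U * z t * W, Or.inl ⟨t, ht, rfl⟩, by group⟩
    · rintro ⟨y, (⟨t, ht, rfl⟩ | ⟨t, ht, rfl⟩), rfl⟩
      · exact Or.inr ⟨t, ht, by group⟩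
      · exact Or.inl ⟨t, ht, by group⟩

/-- A certificate for an edge between two words: after expanding, one arises from the other by
reversing and inverting the part between the positions `a` and `b`. -/
def edgeOK (m : ℕ) (x : Word) (js : List ℕ) (m' : ℕ) (y : Word) (js' : List ℕ) (a b : ℕ) : Bool :=
  okjs m js && okjs m' js' && decide (m + js.length = m' + js'.length) &&
  match ((expands js x).take b).drop a with
  | [] => false
  | (i, _) :: v => decide (i < m + js.length) &&
      ((expands js x).take a).all (fun t => t.1 != i) && v.all (fun t => t.1 != i) &&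
      ((expands js x).drop b).all (fun t => t.1 != i) &&
      decide (expands js' y = (expands js x).take a ++ winv (((expands js x).take b).drop a) ++
        (expands js x).drop b) && decide (a ≤ b)

theorem col_ne_of_edgeOK {p : Ultrafilter G}
    (hp : ∀ F : Set G, F.Finite → ∀ᶠ x in (p : Filter G), x ∉ F)
    (hpp : ∀ P : G → Prop, (∀ᶠ x in (p : Filter G), P x) ↔
      ∀ᶠ x in (p : Filter G), ∀ᶠ y in (p : Filter G), P (x * y))
    (c : G → α) (n : ℕ)
    (hc : ¬ ∃ (A : Finset G) (g : G), n ≤ A.card ∧ (∀ a ∈ A, ∀ b ∈ A, c a = c b) ∧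
      (A : Set G) = (fun x => g * x⁻¹ * g) '' (A : Set G))
    {m : ℕ} {x : Word} {js : List ℕ} {m' : ℕ} {y : Word} {js' : List ℕ} {a b : ℕ}
    (h : edgeOK m x js m' y js' a b = true) : col p c m x ≠ col p c m' y := by
  unfold edgeOK at h
  rw [Bool.and_eq_true, Bool.and_eq_true, Bool.and_eq_true, decide_eq_true_eq] at h
  obtain ⟨⟨⟨h1, h2⟩, h3⟩, h4⟩ := h
  rw [← col_expands hpp c m x js h1, ← col_expands hpp c m' y js' h2, ← h3]
  set X := expands js x with hX
  set Y := expands js' y with hY
  cases hmid : (X.take b).drop a with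
  | nil => rw [hmid] at h4; simp at h4
  | cons t v =>
    obtain ⟨i, s⟩ := t
    rw [hmid] at h4
    simp only [Bool.and_eq_true, decide_eq_true_eq, List.all_eq_true, bne_iff_ne, ne_eq] at h4
    obtain ⟨⟨⟨⟨⟨h5, h6⟩, h7⟩, h8⟩, h9⟩, h10⟩ := h4
    have hX' : X = X.take a ++ ((i, s) :: v) ++ X.drop b := by
      rw [← hmid]
      conv_lhs => rw [← List.take_append_drop b X]
      congr 1
      conv_lhs => rw [← List.take_append_drop a (X.take b)]
      rw [List.take_take, min_eq_left h10]
    rw [h9]
    conv_lhs => rw [hX']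
    exact col_ne hp c n hc _ _ _ _ i s h5 h6 h7 h8

end words

/-- `noExt adjs cols`: the partial colouring `cols` does not extend to the vertices with the lists
`adjs` of earlier neighbours. -/
def noExt (k : ℕ) : List (List ℕ) → List ℕ → Bool
  | [], _ => false
  | a :: adjs, cols => (List.range k).all fun c =>
      a.any (fun j => cols.getD j k == c) || noExt k adjs (cols ++ [c])

theorem noExt_sound (k : ℕ) (f : ℕ → ℕ) (hf : ∀ i, f i < k) : ∀ (adjs : List (List ℕ)) (m : ℕ),
    noExt k adjs ((List.range m).map f) = true →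
    ∃ i, i < adjs.length ∧ ∃ j ∈ adjs.getD i [], j < m + i ∧ f j = f (m + i) := by
  intro adjs
  induction adjs with
  | nil => intro m h; simp [noExt] at h
  | cons a adjs ih =>
    intro m h
    rw [noExt, List.all_eq_true] at h
    have h1 := h (f m) (List.mem_range.2 (hf m))
    rw [Bool.or_eq_true] at h1
    rcases h1 with h1 | h1
    · rw [List.any_eq_true] at h1
      obtain ⟨j, hj, hjc⟩ := h1
      rw [beq_iff_eq] at hjc
      refine ⟨0, by simp, j, by simpa using hj, ?_⟩
      have hjm : j < m := by
        by_contra hcon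
        rw [List.getD_eq_default _ _ (by simp; omega)] at hjc
        have := hf m
        omega
      refine ⟨by omega, ?_⟩
      rw [List.getD_eq_getElem _ _ (by simpa using hjm)] at hjc
      simpa using hjc
    · have h2 : (List.range m).map f ++ [f m] = (List.range (m + 1)).map f := by
        rw [List.range_succ, List.map_append]
        rfl
      rw [h2] at h1
      obtain ⟨i, hi, j, hj, hjm, hfj⟩ := ih (m + 1) h1
      refine ⟨i + 1, by simpa using hi, j, by simpa using hj, by omega, ?_⟩
      rw [hfj]
      congr 1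
      omega

end Pool.Agent.Lib.MP_76c039_co
end

section

set_option autoImplicit false

/-!
Seventeen words which need five colours.
-/

namespace Pool.Agent.Lib.MP_76c039_co

open Filter

/-- The seventeen words (with their numbers of letters). -/
def verts4 : List (ℕ × Word) := [
  (5, [(0, true), (3, true), (1, false), (2, true), (4, true)]),
  (6, [(0, true), (3, true), (1, false), (2, true), (4, false), (5, true)]),
  (6, [(0, true), (3, true), (2, false), (1, true), (4, false), (5, true)]),
  (5, [(0, true), (2, false), (1, true), (3, false), (4, true)]),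
  (6, [(0, true), (4, true), (1, false), (2, true), (3, false), (5, true)]),
  (5, [(0, true), (3, true), (2, false), (1, true), (4, true)]),
  (5, [(0, true), (2, true), (1, true), (3, false), (4, true)]),
  (4, [(0, true), (2, true), (1, false), (3, true)]),
  (4, [(0, true), (2, true), (1, true), (3, true)]),
  (5, [(0, true), (2, true), (1, false), (3, false), (4, true)]),
  (5, [(0, true), (3, true), (1, true), (2, false), (4, true)]),
  (6, [(0, true), (4, false), (1, false), (2, true), (3, false), (5, true)]),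
  (5, [(0, true), (3, false), (1, true), (2, false), (4, true)]),
  (5, [(0, true), (2, true), (3, false), (1, true), (4, true)]),
  (5, [(0, true), (1, false), (3, true), (2, false), (4, true)]),
  (6, [(0, true), (1, false), (4, true), (3, false), (2, true), (5, true)]),
  (6, [(0, true), (1, false), (3, true), (4, false), (2, true), (5, true)])]

/-- Earlier neighbours. -/
def adj4 : List (List ℕ) := [[], [0], [0, 1], [0, 1, 2], [3, 0, 2], [0, 1, 2], [3, 1], [6, 5], [7, 6, 0], [8, 7, 6, 2], [8, 9, 4], [10, 5, 4], [7, 10, 4, 11], [8, 7, 5], [7, 13, 12], [14, 13, 5], [14, 13, 5, 15]]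

/-- Certificates for the edges: expansions of both words and the reversed part. -/
def cert4 : List (List (ℕ × List ℕ × List ℕ × ℕ × ℕ)) := [
  [],
  [(0, [], [4], 4, 5)],
  [(0, [], [3], 2, 5), (1, [], [], 2, 4)],
  [(0, [], [], 1, 4), (1, [0], [], 1, 3), (2, [2], [], 1, 2)],
  [(3, [], [3], 1, 4), (0, [], [2], 4, 5), (2, [], [], 1, 5)],
  [(0, [], [], 2, 4), (1, [3], [], 2, 5), (2, [4], [], 4, 5)],
  [(3, [], [], 1, 2), (1, [1], [], 2, 3)],
  [(6, [2], [], 2, 4), (5, [1], [], 3, 4)],
  [(7, [], [], 2, 3), (6, [3], [], 3, 4), (0, [1], [], 2, 3)],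
  [(8, [], [2], 2, 4), (7, [], [3], 3, 4), (6, [], [], 2, 3), (2, [1], [], 3, 4)],
  [(8, [], [1], 3, 4), (9, [], [], 1, 4), (4, [1], [], 2, 3)],
  [(10, [], [0], 1, 3), (5, [], [4], 1, 5), (4, [], [], 1, 2)],
  [(7, [], [3], 1, 4), (10, [], [], 1, 2), (4, [0], [], 1, 3), (11, [1], [], 2, 3)],
  [(8, [], [2], 2, 3), (7, [], [3], 2, 4), (5, [], [], 1, 3)],
  [(7, [], [0], 1, 2), (13, [], [], 1, 4), (12, [], [], 1, 3)],
  [(14, [], [2], 4, 5), (13, [], [1], 1, 4), (5, [], [0], 1, 2)],
  [(14, [], [4], 3, 5), (13, [], [0], 1, 2), (5, [], [1], 1, 4), (15, [], [], 2, 4)]]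

theorem cert4_ok : ∀ i < 17, ∀ j ∈ adj4.getD i [], ∃ e ∈ cert4.getD i [], e.1 = j ∧
    edgeOK (verts4.getD i (0, [])).1 (verts4.getD i (0, [])).2 e.2.1
      (verts4.getD j (0, [])).1 (verts4.getD j (0, [])).2 e.2.2.1 e.2.2.2.1 e.2.2.2.2 = true := by
  decide +kernel

theorem noExt4 : noExt 4 adj4 [] = true := by
  decide +kernel

/-- Four colours. -/
theorem four_colours (G : Type*) [Group G] [Infinite G] (c : G → Fin 4) (n : ℕ) :
    ∃ (A : Finset G) (g : G), n ≤ A.card ∧ (∀ a ∈ A, ∀ b ∈ A, c a = c b) ∧
      (A : Set G) = (fun x => g * x⁻¹ * g) '' (A : Set G) := by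
  by_contra hc
  obtain ⟨p, hp, hpp⟩ := exists_idem G
  let f : ℕ → ℕ := fun i => (col p c (verts4.getD i (0, [])).1 (verts4.getD i (0, [])).2 : Fin 4)
  obtain ⟨i, hi, j, hj, hji, hf⟩ := noExt_sound 4 f (fun i => Fin.is_lt _) adj4 0 noExt4
  rw [zero_add] at hf
  have hi17 : i < 17 := hi
  obtain ⟨e, -, -, he⟩ := cert4_ok i hi17 j hj
  exact col_ne_of_edgeOK hp hpp c n hc he (Fin.ext hf).symm

end Pool.Agent.Lib.MP_76c039_co
end
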