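import Pool.Agent.Lib.MP_76c039_co.Core

set_option autoImplicit false

/-!
Q1 for all infinite groups having an infinite subgroup without involutions, or with infinitely
many involutions, or with elements of unbounded order, or which is commutative.
-/

namespace Pool.Agent.Results.MP_76c039_co.ManyGroups

open Pool.Agent.Lib.MP_76c039_co

/-- If `G` has an infinite subgroup `H` which has no element of order two, or infinitely many
elements of order two, or elements of unbounded (or infinite) order, or which is commutative, then
every finite colouring of `G` has arbitrarily large finite monochromatic symmetric subsets. -/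
theorem result {G : Type*} [Group G] (H : Subgroup G) (hinf : Infinite H)
    (hH : (∀ x ∈ H, x * x = 1 → x = 1) ∨
      {x : G | x ∈ H ∧ x * x = 1}.Infinite ∨
      (∀ N : ℕ, ∃ x ∈ H, ∀ i : ℕ, 0 < i → i ≤ N → x ^ i ≠ 1) ∨
      (∀ x ∈ H, ∀ y ∈ H, x * y = y * x))
    (k : ℕ) (c : G → Fin k) (n : ℕ) :
    ∃ (A : Finset G) (g : G), n ≤ A.card ∧ (∀ a ∈ A, ∀ b ∈ A, c a = c b) ∧
      (A : Set G) = (fun x => g * x⁻¹ * g) '' (A : Set G) := by
  refine (PairOut.of_subgroup H ?_).large k c n
  rcases hH with h | h | h | h
  · apply pairOut_of_no_involution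
    intro x hx
    have := h x x.2 (by simpa using congrArg Subtype.val hx)
    exact Subtype.ext this
  · apply pairOut_of_infinite
    intro hfin
    apply h
    refine (hfin.image Subtype.val).subset ?_
    rintro x ⟨hx, hxx⟩
    exact ⟨⟨x, hx⟩, Subtype.ext hxx, rfl⟩
  · apply pairOut_of_unbounded
    intro N
    obtain ⟨x, hx, hxN⟩ := h N
    refine ⟨⟨x, hx⟩, fun i hi hiN h1 => hxN i hi hiN ?_⟩
    simpa using congrArg Subtype.val h1
  · apply pairOut_of_comm
    intro x y
    exact Subtype.ext (h x x.2 y y.2)

end Pool.Agent.Results.MP_76c039_co.ManyGroups
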