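import Pool.Agent.Lib.MP_76c039_co.Cent

set_option autoImplicit false

/-!
The structure of groups without large monochromatic symmetric sets.
-/

namespace Pool.Agent.Lib.MP_76c039_co

open Set

/-- A finitely generated infinite group `H`, generated by its elements of odd order, with a finite
centre of even order, such that all elements outside the centre have finite centralizers, `H`
modulo the centre has finite odd exponent, and the orders of the finite subgroups are bounded. -/
structure Tight (H : Type*) [Group H] : Prop where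
  infinite : Infinite H
  fg : Group.FG H
  odd_gen : Subgroup.closure {x : H | Odd (orderOf x)} = ⊤
  finite_center : (Subgroup.center H : Set H).Finite
  involution : ∃ z ∈ Subgroup.center H, z ≠ 1 ∧ z * z = 1
  centralizer : ∀ h : H, h ∉ Subgroup.center H → {x : H | x * h = h * x}.Finite
  odd_exponent : ∃ N : ℕ, Odd N ∧ ∀ x : H, x ^ N ∈ Subgroup.center H
  bounded : ∃ B : ℕ, ∀ F : Subgroup H, Finite F → Nat.card F ≤ B

section quotient

variable {G : Type*} [Group G]

/-- The image of an element with finite centralizer in the quotient by a finite subgroup. -/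
theorem finite_centralizer_quotient (N : Subgroup G) [N.Normal] (hN : (N : Set G).Finite) (h : G)
    (hh : {x : G | x * h = h * x}.Finite) :
    {y : G ⧸ N | y * (h : G ⧸ N) = (h : G ⧸ N) * y}.Finite := by
  have h1 := finite_conj_mem h hh ((fun n => h * n) '' (N : Set G)) (hN.image _)
  refine (h1.image (fun g => ((g : G) : G ⧸ N))).subset ?_
  intro y hy
  obtain ⟨g, rfl⟩ := QuotientGroup.mk_surjective y
  have hy' : ((g * h : G) : G ⧸ N) = ((h * g : G) : G ⧸ N) := hy
  rw [QuotientGroup.eq] at hy'
  refine ⟨g, ?_, rfl⟩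
  refine ⟨h⁻¹ * (g⁻¹ * h * g), ?_, by group⟩
  have e : h⁻¹ * (g⁻¹ * h * g) = (g * h)⁻¹ * (h * g) := by group
  rw [SetLike.mem_coe, e]
  exact hy'

theorem infinite_quotient [Infinite G] (N : Subgroup G) (hN : (N : Set G).Finite) :
    Infinite (G ⧸ N) := by
  by_contra hcon
  rw [not_infinite_iff_finite] at hcon
  have : Finite N := hN
  have : Finite ((G ⧸ N) × N) := inferInstance
  have : Finite G := Finite.of_equiv _ (Subgroup.groupEquivQuotientProdSubgroup (s := N)).symm
  exact not_finite G

/-- Elements outside of the finite centre with finite centralizers, finite exponent: a power with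
odd exponent of each element is central. -/
theorem odd_exponent_of_centralizers [Infinite G] (hZ : (Subgroup.center G : Set G).Finite)
    (hC : ∀ h : G, h ∉ Subgroup.center G → {x : G | x * h = h * x}.Finite)
    (M : ℕ) (hM : 0 < M) (hexp : ∀ x : G, x ^ M = 1) :
    ∃ N : ℕ, Odd N ∧ ∀ x : G, x ^ N ∈ Subgroup.center G := by
  have hinf := infinite_quotient (Subgroup.center G) hZ
  have key : ∀ x : G, x * x ∈ Subgroup.center G → x ∈ Subgroup.center G := by
    intro x hx
    have h1 : (x : G ⧸ Subgroup.center G) = 1 := by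
      apply no_involution
      · intro y
        obtain ⟨g, rfl⟩ := QuotientGroup.mk_surjective y
        rw [isOfFinOrder_iff_pow_eq_one]
        refine ⟨M, hM, ?_⟩
        rw [← QuotientGroup.mk_pow, hexp]
        rfl
      · intro y hy
        obtain ⟨g, rfl⟩ := QuotientGroup.mk_surjective y
        apply finite_centralizer_quotient _ hZ
        apply hC
        intro hg
        exact hy ((QuotientGroup.eq_one_iff g).2 hg)
      · rw [← QuotientGroup.mk_mul]
        exact (QuotientGroup.eq_one_iff _).2 hx
    exact (QuotientGroup.eq_one_iff x).1 h1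
  obtain ⟨a, N, hN, rfl⟩ := Nat.exists_eq_two_pow_mul_odd hM.ne'
  refine ⟨N, hN, fun x => ?_⟩
  have h2 : ∀ (a : ℕ) (y : G), y ^ (2 ^ a) ∈ Subgroup.center G → y ∈ Subgroup.center G := by
    intro a
    induction a with
    | zero => intro y hy; simpa using hy
    | succ a ih =>
      intro y hy
      apply key
      apply ih
      rw [← sq, ← pow_mul, ← pow_succ']
      exact hy
  apply h2 a
  rw [← pow_mul, mul_comm N, hexp]
  exact Subgroup.one_mem _

end quotient

section colour

variable {G : Type*} [Group G]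

/-- A colouring with `k` colours without nontrivial monochromatic pairs. -/
def Good {k : ℕ} (c : G → Fin k) : Prop := ∀ x z : G, z * z ≠ 1 → c (z * z * x) ≠ c x

theorem exists_good (h : ¬ PairOut G) : ∃ (k : ℕ) (c : G → Fin k), Good c := by
  by_contra hcon
  apply h
  apply pairOut_of_pairs
  intro k c
  by_contra hc
  apply hcon
  refine ⟨k, c, fun x z hz hcz => hc ⟨x, z, hz, hcz⟩⟩

theorem Good.not_pairOut {k : ℕ} {c : G → Fin k} (hc : Good c)
    (hJ : {x : G | x * x = 1}.Finite) : ¬ PairOut G := by
  intro h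
  obtain ⟨x, z, hz, hcz⟩ := h k c hJ.toFinset
  exact hc x z (fun h1 => hz (hJ.mem_toFinset.2 h1)) hcz

theorem Good.sub {k : ℕ} {c : G → Fin k} (hc : Good c) (H : Subgroup G) :
    Good (fun x : H => c x) := by
  intro x z hz
  have := hc x z (fun h => hz (Subtype.ext h))
  simpa using this

/-- Pairwise commuting finite sets are small. -/
theorem Good.card_comm {k : ℕ} {c : G → Fin k} (hc : Good c) (hJ : {x : G | x * x = 1}.Finite)
    (T : Finset G) (hT : ∀ a ∈ T, ∀ b ∈ T, a * b = b * a) :
    T.card ≤ hJ.toFinset.card * k := by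
  classical
  calc T.card ≤ hJ.toFinset.card * (T.image (fun a => c (a * a))).card := by
        apply Finset.card_le_mul_card_image
        intro y _
        rcases (T.filter (fun a => c (a * a) = y)).eq_empty_or_nonempty with h0 | ⟨b, hb⟩
        · rw [h0]; simp
        rw [Finset.mem_filter] at hb
        apply Finset.card_le_card_of_injOn (fun a => a * b⁻¹)
        · intro a ha
          rw [Finset.mem_coe, Finset.mem_filter] at ha
          rw [Finset.mem_coe, Set.Finite.mem_toFinset]
          have hcomm : b⁻¹ * a = a * b⁻¹ := by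
            have := hT a ha.1 b hb.1
            calc b⁻¹ * a = b⁻¹ * (a * b) * b⁻¹ := by group
              _ = b⁻¹ * (b * a) * b⁻¹ := by rw [this]
              _ = a * b⁻¹ := by group
          by_contra hne
          apply hc (b * b) (a * b⁻¹) hne
          have e : a * b⁻¹ * (a * b⁻¹) * (b * b) = a * a := by
            calc a * b⁻¹ * (a * b⁻¹) * (b * b) = a * (b⁻¹ * a) * b := by group
              _ = a * a := by rw [hcomm]; group
          rw [e, ha.2, hb.2]
        · exact (mul_left_injective b⁻¹).injOn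
    _ ≤ hJ.toFinset.card * k := by
        apply Nat.mul_le_mul_left
        exact (Finset.card_le_univ _).trans (by simp)

/-- The centre of a subgroup, as a set. -/
def zc (H : Subgroup G) : Set G := {g | g ∈ H ∧ ∀ x ∈ H, g * x = x * g}

theorem ncard_le_of_finset {α : Type*} (s : Set α) (b : ℕ)
    (h : ∀ T : Finset α, (T : Set α) ⊆ s → T.card ≤ b) : s.Finite ∧ s.ncard ≤ b := by
  have hfin : s.Finite := by
    by_contra hinf
    obtain ⟨T, hT, hcard⟩ := Set.Infinite.exists_subset_card_eq hinf (b + 1)
    have := h T hT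
    omega
  refine ⟨hfin, ?_⟩
  have h1 := h hfin.toFinset (by simp)
  rwa [Set.ncard_eq_toFinset_card s hfin]

theorem Good.zc_bound {k : ℕ} {c : G → Fin k} (hc : Good c) (hJ : {x : G | x * x = 1}.Finite)
    (H : Subgroup G) : (zc H).Finite ∧ (zc H).ncard ≤ hJ.toFinset.card * k := by
  apply ncard_le_of_finset
  intro T hT
  apply hc.card_comm hJ
  intro a ha b hb
  exact (hT ha).2 b (hT hb).1

/-- Subgroups with maximal centre in a family. -/
theorem exists_maximal_centre (P : Subgroup G → Prop) (hne : ∃ H, P H) (b : ℕ)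
    (hb : ∀ H : Subgroup G, (zc H).Finite ∧ (zc H).ncard ≤ b)
    (hP : ∀ H : Subgroup G, P H → ∀ h ∈ H, {x : G | x ∈ H ∧ x * h = h * x}.Infinite →
      ∃ H', P H' ∧ zc H ⊆ zc H' ∧ h ∈ zc H') :
    ∃ H, P H ∧ ∀ h ∈ H, h ∉ zc H → {x : G | x ∈ H ∧ x * h = h * x}.Finite := by
  classical
  let S : Set ℕ := {m | ∃ H, P H ∧ (zc H).ncard = m}
  have hSne : S.Nonempty := by
    obtain ⟨H, hH⟩ := hne
    exact ⟨_, H, hH, rfl⟩
  have hSb : BddAbove S := by
    refine ⟨b, ?_⟩
    rintro m ⟨H, -, rfl⟩
    exact (hb H).2
  obtain ⟨H, hH, hHm⟩ := Nat.sSup_mem hSne hSb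
  refine ⟨H, hH, fun h hh hnot => ?_⟩
  by_contra hinf
  obtain ⟨H', hPH', hsub, hmem⟩ := hP H hH h hh hinf
  have h1 : (zc H').ncard ≤ sSup S := le_csSup hSb ⟨H', hPH', rfl⟩
  have h2 : (zc H).ncard < (zc H').ncard := by
    apply Set.ncard_lt_ncard _ (hb H').1
    exact ⟨hsub, fun hcon => hnot (hcon hmem)⟩
  omega

theorem mem_zc_iff (H : Subgroup G) (x : H) : (x : G) ∈ zc H ↔ x ∈ Subgroup.center H := by
  rw [Subgroup.mem_center_iff]
  constructor
  · intro h g
    exact Subtype.ext (h.2 g g.2).symm
  · intro h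
    refine ⟨x.2, fun y hy => ?_⟩
    have := congrArg Subtype.val (h ⟨y, hy⟩)
    exact this.symm

/-- finite subgroups are small -/
theorem Good.card_finite_subgroup {k : ℕ} {c : G → Fin k} (hc : Good c)
    (hZ : (Subgroup.center G : Set G).Finite) (N : ℕ) (hN : Odd N)
    (hexp : ∀ x : G, x ^ N ∈ Subgroup.center G) (F : Subgroup G) (hF : Finite F) :
    Nat.card F ≤ Nat.card (Subgroup.center G) * k := by
  classical
  have hfZ : Finite (Subgroup.center G) := hZ
  have hfact : Fact (Nat.Prime 2) := ⟨Nat.prime_two⟩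
  obtain ⟨P⟩ : Nonempty (Sylow 2 F) := inferInstance
  have hPc : ∀ x : F, x ∈ (P : Subgroup F) → (x : G) ∈ Subgroup.center G := by
    intro x hx
    obtain ⟨a, ha⟩ := P.isPGroup' ⟨x, hx⟩
    have ha' : (x : G) ^ (2 ^ a) = 1 := by
      have := congrArg (fun y : (P : Subgroup F) => ((y : F) : G)) ha
      simpa using this
    have hcop : Int.gcd ((2 : ℤ) ^ a) (N : ℤ) = 1 := by
      have h1 : Nat.Coprime (2 ^ a) N := Nat.Coprime.pow_left a (Nat.coprime_two_left.2 hN)
      have := Nat.isCoprime_iff_coprime.2 h1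
      rw [Int.isCoprime_iff_gcd_eq_one] at this
      simpa using this
    obtain ⟨u, v, huv⟩ := Int.isCoprime_iff_gcd_eq_one.2 hcop
    have e : (x : G) = ((x : G) ^ (2 ^ a)) ^ u * ((x : G) ^ N) ^ v := by
      calc (x : G) = (x : G) ^ (1 : ℤ) := by rw [zpow_one]
        _ = (x : G) ^ (u * (2 : ℤ) ^ a + v * N) := by rw [huv]
        _ = (x : G) ^ ((2 : ℤ) ^ a * u) * (x : G) ^ ((N : ℤ) * v) := by
            rw [← zpow_add]; ring_nf
        _ = _ := by
            rw [zpow_mul, zpow_mul]
            congr 2
            · rw [← zpow_natCast]; push_cast; rfl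
            · rw [zpow_natCast]
    rw [e, ha', one_zpow, one_mul]
    exact Subgroup.zpow_mem _ (hexp x) v
  have hPn : (P : Subgroup F).Normal := by
    refine ⟨fun x hx g => ?_⟩
    have h1 := hPc x hx
    rw [Subgroup.mem_center_iff] at h1
    have h2 : g * x * g⁻¹ = x := by
      apply Subtype.ext
      have := h1 (g : G)
      calc ((g * x * g⁻¹ : F) : G) = (g : G) * x * (g : G)⁻¹ := by simp
        _ = x := by rw [this]; group
    rw [h2]
    exact hx
  obtain ⟨O, hO⟩ := Subgroup.exists_right_complement'_of_coprime (N := (P : Subgroup F))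
    (P.card_coprime_index)
  have hcard := hO.card_mul_card
  have hP : Nat.card (P : Subgroup F) ≤ Nat.card (Subgroup.center G) := by
    apply Nat.card_le_card_of_injective
      (fun x : (P : Subgroup F) => (⟨(x : F), hPc x x.2⟩ : Subgroup.center G))
    intro x y hxy
    have := congrArg Subtype.val hxy
    exact Subtype.ext (Subtype.ext this)
  have hOk : Nat.card O ≤ k := by
    have hodd : Odd (Nat.card O) := by
      have h1 : (P : Subgroup F).index = Nat.card O := hO.symm.index_eq_card
      rw [← h1, ← Nat.not_even_iff_odd, even_iff_two_dvd]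
      exact P.not_dvd_index
    have h3 : Function.Injective (fun x : O => c ((x : F) : G)) := by
      intro x y hxy
      by_contra hne
      have hne1 : x * y⁻¹ ≠ 1 := fun h => hne (mul_inv_eq_one.1 h)
      obtain ⟨m, hm⟩ : ∃ m, orderOf (x * y⁻¹) = 2 * m + 1 :=
        Odd.of_dvd_nat hodd (orderOf_dvd_natCard _)
      have hz : (x * y⁻¹) ^ (m + 1) * (x * y⁻¹) ^ (m + 1) = x * y⁻¹ := by
        rw [← pow_add]
        have : m + 1 + (m + 1) = orderOf (x * y⁻¹) + 1 := by omega
        rw [this, pow_succ, pow_orderOf_eq_one, one_mul]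
      have hz' : ((((x * y⁻¹) ^ (m + 1) : O) : F) : G) * (((x * y⁻¹) ^ (m + 1) : O) : F) =
          (((x * y⁻¹ : O) : F) : G) := by
        rw [← Subgroup.coe_mul, ← Subgroup.coe_mul, hz]
      apply hc ((y : F) : G) ((((x * y⁻¹) ^ (m + 1) : O) : F) : G)
      · rw [hz']
        intro h1
        apply hne1
        exact Subtype.ext (Subtype.ext h1)
      · rw [hz']
        have : (((x * y⁻¹ : O) : F) : G) * ((y : F) : G) = ((x : F) : G) := by
          rw [← Subgroup.coe_mul, ← Subgroup.coe_mul, inv_mul_cancel_right]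
        rw [this]
        exact hxy
    have := Nat.card_le_card_of_injective _ h3
    simpa using this
  rw [← hcard]
  exact Nat.mul_le_mul hP hOk

/-- An infinite group whose finite subgroups have bounded order has a finitely generated infinite
subgroup. -/
theorem exists_fg_infinite [Infinite G] (B : ℕ) (hB : ∀ F : Subgroup G, Finite F → Nat.card F ≤ B) :
    ∃ F : Subgroup G, F.FG ∧ Infinite F := by
  classical
  by_contra hcon
  push Not at hcon
  have hfin : ∀ F : Subgroup G, F.FG → Finite F := hcon
  let S : Set ℕ := {m | ∃ F : Subgroup G, F.FG ∧ Nat.card F = m}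
  have hSne : S.Nonempty := ⟨_, ⊥, (Subgroup.fg_iff _).2 ⟨∅, Subgroup.closure_empty, Set.finite_empty⟩, rfl⟩
  have hSb : BddAbove S := by
    refine ⟨B, ?_⟩
    rintro m ⟨F, hF, rfl⟩
    exact hB F (hfin F hF)
  obtain ⟨F, hF, hFm⟩ := Nat.sSup_mem hSne hSb
  have htop : F = ⊤ := by
    rw [eq_top_iff]
    intro x _
    have h1 : (F ⊔ Subgroup.zpowers x).FG :=
      hF.sup ((Subgroup.fg_iff _).2 ⟨{x}, by rw [Subgroup.zpowers_eq_closure], Set.finite_singleton x⟩)
    have h2 : Nat.card (F ⊔ Subgroup.zpowers x : Subgroup G) ≤ Nat.card F := by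
      rw [hFm]
      exact le_csSup hSb ⟨_, h1, rfl⟩
    have h3 := hfin _ h1
    have h4 : F = F ⊔ Subgroup.zpowers x :=
      Subgroup.eq_of_le_of_card_ge le_sup_left h2
    rw [h4]
    exact (le_sup_right : Subgroup.zpowers x ≤ _) (Subgroup.mem_zpowers x)
  have h5 := hfin F hF
  rw [htop] at h5
  have h6 : Finite G := Finite.of_equiv _ (Subgroup.topEquiv (G := G)).toEquiv
  exact not_finite G

end colour

end Pool.Agent.Lib.MP_76c039_co
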