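import Pool.Agent.Lib.MP_76c039_co.Struct

set_option autoImplicit false

/-!
The structure of groups without large monochromatic symmetric sets, continued.
-/

namespace Pool.Agent.Lib.MP_76c039_co

open Set

section sub

variable {G : Type*} [Group G]

theorem coe_pow_zc (H : Subgroup G) (N : ℕ) (h : ∀ x : H, x ^ N ∈ Subgroup.center H) (x : G)
    (hx : x ∈ H) : x ^ N ∈ zc H := by
  have := (mem_zc_iff H (⟨x, hx⟩ ^ N)).2 (h ⟨x, hx⟩)
  simpa using this

/-- The centralizer of `h` in `H` -/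
def cz (H : Subgroup G) (h : G) : Subgroup G where
  carrier := {x : G | x ∈ H ∧ x * h = h * x}
  one_mem' := ⟨H.one_mem, by rw [one_mul, mul_one]⟩
  mul_mem' := by
    rintro a b ⟨ha, ha'⟩ ⟨hb, hb'⟩
    refine ⟨H.mul_mem ha hb, ?_⟩
    rw [mul_assoc, hb', ← mul_assoc, ha', mul_assoc]
  inv_mem' := by
    rintro a ⟨ha, ha'⟩
    refine ⟨H.inv_mem ha, ?_⟩
    calc a⁻¹ * h = a⁻¹ * (h * a) * a⁻¹ := by group
      _ = a⁻¹ * (a * h) * a⁻¹ := by rw [ha']
      _ = h * a⁻¹ := by group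

theorem center_finite_of_zc (H : Subgroup G) (h : (zc H).Finite) :
    (Subgroup.center H : Set H).Finite := by
  refine (h.preimage (f := (Subtype.val : H → G)) Subtype.val_injective.injOn).subset ?_
  intro x hx
  exact (mem_zc_iff H x).2 hx

theorem centralizer_of_zc (H : Subgroup G)
    (h : ∀ h ∈ H, h ∉ zc H → {x : G | x ∈ H ∧ x * h = h * x}.Finite) :
    ∀ h : H, h ∉ Subgroup.center H → {x : H | x * h = h * x}.Finite := by
  intro g hg
  refine ((h g g.2 (fun hc => hg ((mem_zc_iff H g).1 hc))).preimage (f := (Subtype.val : H → G))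
    Subtype.val_injective.injOn).subset ?_
  intro x hx
  exact ⟨x.2, congrArg Subtype.val hx⟩

theorem exists_sub_infinite {k : ℕ} {c : G → Fin k} (hc : Good c)
    (hJ : {x : G | x * x = 1}.Finite) (K : Subgroup G) (hK : Infinite K) :
    ∃ H : Subgroup G, (H ≤ K ∧ Infinite H) ∧
      ∀ h ∈ H, h ∉ zc H → {x : G | x ∈ H ∧ x * h = h * x}.Finite := by
  apply exists_maximal_centre (fun H => H ≤ K ∧ Infinite H) ⟨K, le_rfl, hK⟩
    (hJ.toFinset.card * k) (hc.zc_bound hJ)
  rintro H ⟨hHK, hHi⟩ h hh hinf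
  refine ⟨cz H h, ⟨fun x hx => hHK hx.1, hinf.to_subtype⟩, ?_, ?_⟩
  · intro g hg
    exact ⟨⟨hg.1, hg.2 h hh⟩, fun x hx => hg.2 x hx.1⟩
  · exact ⟨⟨hh, rfl⟩, fun x hx => hx.2.symm⟩

theorem exists_fg_sub {k : ℕ} {c : G → Fin k} (hc : Good c)
    (hJ : {x : G | x * x = 1}.Finite) (M : ℕ) (hM : 0 < M) (hexp : ∀ x : G, x ^ M = 1)
    (K : Subgroup G) (hK : Infinite K) :
    ∃ H : Subgroup G, H ≤ K ∧ H.FG ∧ Infinite H := by
  obtain ⟨H, ⟨hHK, hHi⟩, hcz⟩ := exists_sub_infinite hc hJ K hK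
  have hZ := center_finite_of_zc H (hc.zc_bound hJ H).1
  obtain ⟨N, hN, hNc⟩ := odd_exponent_of_centralizers (G := H) hZ (centralizer_of_zc H hcz) M hM
    (fun x => Subtype.ext (by simpa using hexp x))
  obtain ⟨F, hF, hFi⟩ := exists_fg_infinite (G := H) _
    (fun F hF => (hc.sub H).card_finite_subgroup hZ N hN hNc F hF)
  have hFG : (F.map H.subtype).FG := by
    obtain ⟨S, hS, hSf⟩ := (Subgroup.fg_iff _).1 hF
    exact (Subgroup.fg_iff _).2 ⟨H.subtype '' S, by rw [← hS, MonoidHom.map_closure],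
      hSf.image _⟩
  refine ⟨F.map H.subtype, ?_, hFG, ?_⟩
  · refine le_trans ?_ hHK
    rintro _ ⟨x, -, rfl⟩
    exact x.2
  · exact Infinite.of_injective (fun x : F => (⟨H.subtype x, Subgroup.mem_map_of_mem _ x.2⟩ :
      F.map H.subtype)) (fun x y hxy => by
        have := congrArg Subtype.val hxy
        exact Subtype.ext (Subtype.val_injective this))

theorem exists_sub_fg {k : ℕ} {c : G → Fin k} (hc : Good c)
    (hJ : {x : G | x * x = 1}.Finite) (M : ℕ) (hM : 0 < M) (hexp : ∀ x : G, x ^ M = 1)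
    (K : Subgroup G) (hK : Infinite K) :
    ∃ H : Subgroup G, (H ≤ K ∧ H.FG ∧ Infinite H) ∧
      ∀ h ∈ H, h ∉ zc H → {x : G | x ∈ H ∧ x * h = h * x}.Finite := by
  apply exists_maximal_centre (fun H => H ≤ K ∧ H.FG ∧ Infinite H)
    (exists_fg_sub hc hJ M hM hexp K hK) (hJ.toFinset.card * k) (hc.zc_bound hJ)
  rintro H ⟨hHK, -, hHi⟩ h hh hinf
  obtain ⟨C, hCle, hCfg, hCi⟩ := exists_fg_sub hc hJ M hM hexp (cz H h) hinf.to_subtype
  have hfin : (zc H ∪ {h}).Finite := (hc.zc_bound hJ H).1.union (Set.finite_singleton h)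
  have hle : C ⊔ Subgroup.closure (zc H ∪ {h}) ≤ cz H h := by
    refine sup_le hCle ((Subgroup.closure_le _).2 ?_)
    rintro x (hx | hx)
    · exact ⟨hx.1, hx.2 h hh⟩
    · rw [Set.mem_singleton_iff] at hx
      subst hx
      exact ⟨hh, rfl⟩
  refine ⟨C ⊔ Subgroup.closure (zc H ∪ {h}), ⟨?_, ?_, ?_⟩, ?_, ?_⟩
  · exact fun x hx => hHK (hle hx).1
  · exact hCfg.sup ((Subgroup.fg_iff _).2 ⟨_, rfl, hfin⟩)
  · exact Infinite.of_injective (Subgroup.inclusion (le_sup_left :
      C ≤ C ⊔ Subgroup.closure (zc H ∪ {h}))) (Subgroup.inclusion_injective _)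
  · intro g hg
    refine ⟨?_, fun x hx => hg.2 x (hle hx).1⟩
    exact (le_sup_right : Subgroup.closure (zc H ∪ {h}) ≤ _)
      (Subgroup.subset_closure (Or.inl hg))
  · refine ⟨?_, fun x hx => (hle hx).2.symm⟩
    exact (le_sup_right : Subgroup.closure (zc H ∪ {h}) ≤ _)
      (Subgroup.subset_closure (Or.inr rfl))

/-- odd and central parts of an element -/
theorem exists_odd_part (x : G) (a N : ℕ) (hN : Odd N) (hx : x ^ (2 ^ a * N) = 1) :
    ∃ (u v : ℤ), x = (x ^ N) ^ v * x ^ u ∧ (x ^ u) ^ N = 1 := by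
  have h1 : IsCoprime ((2 : ℤ) ^ a) (N : ℤ) := by
    have h1 : Nat.Coprime (2 ^ a) N := Nat.Coprime.pow_left a (Nat.coprime_two_left.2 hN)
    have := Nat.isCoprime_iff_coprime.2 h1
    simpa using this
  obtain ⟨u, v, huv⟩ := h1
  refine ⟨u * 2 ^ a, v, ?_, ?_⟩
  · calc x = x ^ (1 : ℤ) := by rw [zpow_one]
      _ = x ^ ((N : ℤ) * v + u * 2 ^ a) := by rw [← huv]; ring_nf
      _ = x ^ ((N : ℤ) * v) * x ^ (u * 2 ^ a) := zpow_add _ _ _
      _ = _ := by rw [zpow_mul, zpow_natCast]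
  · have e : (x ^ (u * 2 ^ a)) ^ N = (x ^ (2 ^ a * N)) ^ u := by
      rw [← zpow_natCast, ← zpow_natCast, ← zpow_mul, ← zpow_mul]
      congr 1
      push_cast
      ring
    rw [e, hx, one_zpow]

theorem exists_tight {k : ℕ} {c : G → Fin k} (hc : Good c)
    (hJ : {x : G | x * x = 1}.Finite) (M : ℕ) (hM : 0 < M) (hexp : ∀ x : G, x ^ M = 1)
    (K : Subgroup G) (hK : Infinite K) : ∃ H : Subgroup G, H ≤ K ∧ Tight H := by
  classical
  obtain ⟨H, ⟨hHK, hHfg, hHi⟩, hcz⟩ := exists_sub_fg hc hJ M hM hexp K hK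
  have hZ := center_finite_of_zc H (hc.zc_bound hJ H).1
  obtain ⟨N, hN, hNc⟩ := odd_exponent_of_centralizers (G := H) hZ (centralizer_of_zc H hcz) M hM
    (fun x => Subtype.ext (by simpa using hexp x))
  have hNz := coe_pow_zc H N hNc
  set H₁ : Subgroup G := Subgroup.closure {x : G | x ∈ H ∧ Odd (orderOf x)} with hH₁
  have hle : H₁ ≤ H := (Subgroup.closure_le _).2 (fun x hx => hx.1)
  have hdec : ∀ x ∈ H, ∃ z ∈ zc H, ∃ y ∈ H₁, x = z * y := by
    intro x hx
    obtain ⟨a, M', hM', rfl⟩ := Nat.exists_eq_two_pow_mul_odd hM.ne'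
    have h1 : x ^ (2 ^ a * (M' * N)) = 1 := by rw [← mul_assoc, pow_mul, hexp, one_pow]
    obtain ⟨u, v, h2, h3⟩ := exists_odd_part x a (M' * N) (hM'.mul hN) h1
    refine ⟨(x ^ (M' * N)) ^ v, ?_, x ^ u, ?_, h2⟩
    · have h5 : ((⟨x, hx⟩ : H) ^ (M' * N)) ^ v ∈ Subgroup.center H := by
        rw [mul_comm M', pow_mul]
        exact Subgroup.zpow_mem _ (Subgroup.pow_mem _ (hNc _) _) _
      have h6 := (mem_zc_iff H _).2 h5
      simpa using h6
    · apply Subgroup.subset_closure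
      refine ⟨H.zpow_mem hx _, ?_⟩
      exact Odd.of_dvd_nat (hM'.mul hN) (orderOf_dvd_of_pow_eq_one h3)
  have hzc : ∀ g, g ∈ zc H₁ ↔ g ∈ H₁ ∧ g ∈ zc H := by
    intro g
    constructor
    · intro hg
      refine ⟨hg.1, hle hg.1, fun x hx => ?_⟩
      obtain ⟨z, hz, y, hy, rfl⟩ := hdec x hx
      rw [← mul_assoc, ← hz.2 g (hle hg.1), mul_assoc, hg.2 y hy, mul_assoc]
    · rintro ⟨hg, hg'⟩
      exact ⟨hg, fun x hx => hg'.2 x (hle hx)⟩
  have hH₁i : Infinite H₁ := by
    by_contra hcon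
    rw [not_infinite_iff_finite] at hcon
    have h1 : (H₁ : Set G).Finite := hcon
    have h2 : (H : Set G).Finite := by
      refine (((hc.zc_bound hJ H).1).image2 (fun z y => z * y) h1).subset ?_
      intro x hx
      obtain ⟨z, hz, y, hy, rfl⟩ := hdec x hx
      exact ⟨z, hz, y, hy, rfl⟩
    have h3 : Finite H := h2
    exact not_finite H
  have hfg : Group.FG H₁ := by
    have hH : Group.FG H := (Group.fg_iff_subgroup_fg H).2 hHfg
    have hfq : Finite (H ⧸ H₁.subgroupOf H) := by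
      have hfz : Finite (zc H) := (hc.zc_bound hJ H).1
      apply Finite.of_surjective (fun z : zc H =>
        ((⟨z.1, z.2.1⟩ : H) : H ⧸ H₁.subgroupOf H))
      intro q
      obtain ⟨x, rfl⟩ := QuotientGroup.mk_surjective q
      obtain ⟨z, hz, y, hy, hxy⟩ := hdec x x.2
      refine ⟨⟨z, hz⟩, ?_⟩
      rw [QuotientGroup.eq, Subgroup.mem_subgroupOf]
      have : ((⟨z, hz.1⟩ : H)⁻¹ * x : H) = (⟨y, hle hy⟩ : H) := by
        apply Subtype.ext
        simp [hxy]
      rw [this]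
      exact hy
    have hfi : (H₁.subgroupOf H).FiniteIndex := Subgroup.finiteIndex_of_finite_quotient
    have h2 : Group.FG (H₁.subgroupOf H) := inferInstance
    exact Group.fg_of_surjective (f := (Subgroup.subgroupOfEquivOfLe hle).toMonoidHom)
      (Subgroup.subgroupOfEquivOfLe hle).surjective
  have hnp : ¬ PairOut G := hc.not_pairOut hJ
  have hZ₁ := center_finite_of_zc H₁ (hc.zc_bound hJ H₁).1
  have hN₁ : ∀ x : H₁, x ^ N ∈ Subgroup.center H₁ := by
    intro x
    rw [← mem_zc_iff, hzc]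
    refine ⟨(x ^ N).2, ?_⟩
    have := hNz x (hle x.2)
    simpa using this
  refine ⟨H₁, hle.trans hHK, ⟨hH₁i, hfg, ?_, hZ₁, ?_, ?_, ⟨N, hN, hN₁⟩, ?_⟩⟩
  · rw [eq_top_iff, ← Subgroup.closure_closure_coe_preimage]
    apply Subgroup.closure_mono
    intro x hx
    have hx' : (x : G) ∈ {x : G | x ∈ H ∧ Odd (orderOf x)} := hx
    change Odd (orderOf x)
    rw [← Subgroup.orderOf_coe]
    exact hx'.2
  · by_contra hcon
    push Not at hcon
    apply hnp
    apply PairOut.of_subgroup H₁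
    apply pairOut_of_no_involution
    intro x hx
    by_contra hne
    apply hcon x _ hne hx
    obtain ⟨m, hm⟩ := hN
    have h1 := hN₁ x
    rw [hm, pow_succ, pow_mul, sq, hx, one_pow, one_mul] at h1
    exact h1
  · apply centralizer_of_zc
    intro h hh hz
    have h1 : h ∉ zc H := fun h2 => hz ((hzc h).2 ⟨hh, h2⟩)
    exact (hcz h (hle hh) h1).subset (fun x hx => ⟨hle hx.1, hx.2⟩)
  · exact ⟨_, fun F hF => (hc.sub H₁).card_finite_subgroup hZ₁ N hN hN₁ F hF⟩

end sub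

section quot

variable {G : Type*} [Group G]

/-- The squares of the central elements. -/
def sqc (G : Type*) [Group G] : Subgroup G where
  carrier := {x : G | ∃ z ∈ Subgroup.center G, z * z = x}
  one_mem' := ⟨1, Subgroup.one_mem _, one_mul 1⟩
  mul_mem' := by
    rintro _ _ ⟨z, hz, rfl⟩ ⟨w, hw, rfl⟩
    refine ⟨z * w, Subgroup.mul_mem _ hz hw, ?_⟩
    have := Subgroup.mem_center_iff.1 hw z
    calc z * w * (z * w) = z * (w * z) * w := by group
      _ = z * (z * w) * w := by rw [this]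
      _ = z * z * (w * w) := by group
  inv_mem' := by
    rintro _ ⟨z, hz, rfl⟩
    exact ⟨z⁻¹, Subgroup.inv_mem _ hz, by group⟩

theorem sqc_le : sqc G ≤ Subgroup.center G := by
  rintro _ ⟨z, hz, rfl⟩
  exact Subgroup.mul_mem _ hz hz

instance : (sqc G).Normal := by
  refine ⟨fun x hx g => ?_⟩
  have h1 := Subgroup.mem_center_iff.1 (sqc_le hx) g
  rw [h1, mul_inv_cancel_right]
  exact hx

/-- Pairs lift from the quotient by the squares of the centre. -/
theorem pairOut_lift (hZ : (Subgroup.center G : Set G).Finite) (h : PairOut (G ⧸ sqc G)) :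
    PairOut G := by
  classical
  intro k c F
  have hF : (Set.image2 (fun w f => ((w⁻¹ * f : G) : G ⧸ sqc G)) (Subgroup.center G : Set G)
      (F : Set G)).Finite := hZ.image2 _ F.finite_toSet
  obtain ⟨X, Z, hZF, hX⟩ := h k (fun X => c X.out) hF.toFinset
  have h1 : ((Z.out * Z.out * X.out : G) : G ⧸ sqc G) = ((Z * Z * X).out : G) := by
    rw [QuotientGroup.mk_mul, QuotientGroup.mk_mul, QuotientGroup.out_eq', QuotientGroup.out_eq',
      QuotientGroup.out_eq']
  rw [QuotientGroup.eq] at h1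
  obtain ⟨w, hw, hww⟩ := h1
  have hwc := Subgroup.mem_center_iff.1 hw
  have h2 : w * Z.out * (w * Z.out) * X.out = (Z * Z * X).out := by
    calc w * Z.out * (w * Z.out) * X.out = w * (Z.out * w) * Z.out * X.out := by group
      _ = w * (w * Z.out) * Z.out * X.out := by rw [hwc]
      _ = (w * w) * (Z.out * Z.out * X.out) := by group
      _ = (Z.out * Z.out * X.out) * (w * w) := by
          rw [Subgroup.mem_center_iff.1 (Subgroup.mul_mem _ hw hw)]
      _ = (Z * Z * X).out := by rw [hww]; group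
  refine ⟨X.out, w * Z.out, ?_, ?_⟩
  · intro hmem
    apply hZF
    rw [Set.Finite.mem_toFinset]
    refine ⟨w, hw, w * Z.out, hmem, ?_⟩
    change ((w⁻¹ * (w * Z.out) : G) : G ⧸ sqc G) = Z
    rw [inv_mul_cancel_left, QuotientGroup.out_eq']
  · rw [h2]
    exact hX

theorem tight_quotient (hT : Tight G) (hnp : ¬ PairOut G) :
    Tight (G ⧸ sqc G) ∧ (∀ z ∈ Subgroup.center (G ⧸ sqc G), z * z = 1) ∧
      ¬ PairOut (G ⧸ sqc G) ∧
      ∃ (k : ℕ) (d : G ⧸ sqc G → Fin k), ∀ x s : G ⧸ sqc G, Odd (orderOf s) → s ≠ 1 →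
        d (s * x) ≠ d x := by
  classical
  have hinf := hT.infinite
  have hfg := hT.fg
  have hnp' : ¬ PairOut (G ⧸ sqc G) := fun h => hnp (pairOut_lift hT.finite_center h)
  obtain ⟨k, d, hd⟩ := exists_good hnp'
  have hsf : (sqc G : Set G).Finite := hT.finite_center.subset sqc_le
  have hQinf : Infinite (G ⧸ sqc G) := infinite_quotient _ hsf
  have hcen : ∀ h : G, (h : G ⧸ sqc G) ∈ Subgroup.center (G ⧸ sqc G) → h ∈ Subgroup.center G := by
    intro h hh
    by_contra hcon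
    have h1 := finite_centralizer_quotient (sqc G) hsf h (hT.centralizer h hcon)
    have h2 : {y : G ⧸ sqc G | y * (h : G ⧸ sqc G) = (h : G ⧸ sqc G) * y} = Set.univ := by
      ext y
      simp only [Set.mem_univ, iff_true]
      exact Subgroup.mem_center_iff.1 hh y
    rw [h2] at h1
    exact Set.infinite_univ h1
  have hcen' : ∀ h : G, h ∈ Subgroup.center G →
      (h : G ⧸ sqc G) ∈ Subgroup.center (G ⧸ sqc G) := by
    intro h hh
    rw [Subgroup.mem_center_iff]
    intro y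
    obtain ⟨g, rfl⟩ := QuotientGroup.mk_surjective y
    rw [← QuotientGroup.mk_mul, ← QuotientGroup.mk_mul, Subgroup.mem_center_iff.1 hh g]
  have hZf : (Subgroup.center (G ⧸ sqc G) : Set (G ⧸ sqc G)).Finite := by
    refine (hT.finite_center.image (fun g : G => ((g : G) : G ⧸ sqc G))).subset ?_
    intro y hy
    obtain ⟨g, rfl⟩ := QuotientGroup.mk_surjective y
    exact ⟨g, hcen g hy, rfl⟩
  obtain ⟨N, hN, hNc⟩ := hT.odd_exponent
  have hNq : ∀ x : G ⧸ sqc G, x ^ N ∈ Subgroup.center (G ⧸ sqc G) := by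
    intro y
    obtain ⟨g, rfl⟩ := QuotientGroup.mk_surjective y
    rw [← QuotientGroup.mk_pow]
    exact hcen' _ (hNc g)
  have hsq : ∀ z ∈ Subgroup.center (G ⧸ sqc G), z * z = 1 := by
    intro z hz
    obtain ⟨g, rfl⟩ := QuotientGroup.mk_surjective z
    rw [← QuotientGroup.mk_mul]
    exact (QuotientGroup.eq_one_iff _).2 ⟨g, hcen g hz, rfl⟩
  refine ⟨⟨hQinf, inferInstance, ?_, hZf, ?_, ?_, ⟨N, hN, hNq⟩, ?_⟩, hsq, hnp', k, d, ?_⟩
  · rw [eq_top_iff]
    intro y _
    obtain ⟨g, rfl⟩ := QuotientGroup.mk_surjective y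
    have hg : g ∈ Subgroup.closure {x : G | Odd (orderOf x)} := by
      rw [hT.odd_gen]
      exact Subgroup.mem_top g
    have h1 : ((QuotientGroup.mk' (sqc G)) g) ∈
        (Subgroup.closure {x : G | Odd (orderOf x)}).map (QuotientGroup.mk' (sqc G)) :=
      Subgroup.mem_map_of_mem _ hg
    rw [MonoidHom.map_closure] at h1
    refine Subgroup.closure_mono ?_ h1
    rintro _ ⟨x, hx, rfl⟩
    exact Odd.of_dvd_nat hx (orderOf_map_dvd _ x)
  · by_contra hcon
    push Not at hcon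
    apply hnp'
    apply pairOut_of_no_involution
    intro x hx
    by_contra hne
    apply hcon x _ hne hx
    obtain ⟨m, hm⟩ := hN
    have h1 := hNq x
    rw [hm, pow_succ, pow_mul, sq, hx, one_pow, one_mul] at h1
    exact h1
  · intro y hy
    obtain ⟨g, rfl⟩ := QuotientGroup.mk_surjective y
    exact finite_centralizer_quotient _ hsf g (hT.centralizer g (fun hg => hy (hcen' g hg)))
  · exact ⟨_, fun F hF => hd.card_finite_subgroup hZf N hN hNq F hF⟩
  · intro x s hs hs1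
    obtain ⟨m, hm⟩ := hs
    have hz : s ^ (m + 1) * s ^ (m + 1) = s := by
      rw [← pow_add]
      have : m + 1 + (m + 1) = orderOf s + 1 := by omega
      rw [this, pow_succ, pow_orderOf_eq_one, one_mul]
    have := hd x (s ^ (m + 1)) (by rw [hz]; exact hs1)
    rw [hz] at this
    exact this

end quot

end Pool.Agent.Lib.MP_76c039_co
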